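import Mathlib
import Pool.Graph.R_seed8.W223.AK.Point
import Pool.Graph.R_seed8.W358.AK.EST
import Pool.Graph.R_seed8.W440.AK.P1
import Pool.Graph.R_seed8.W375.AK.CS
import Pool.Graph.R_seed8.W52.AK.CNT

/-!
# Off-diagonal pairs of ideals congruent modulo a large ideal
-/

set_option autoImplicit false
set_option linter.unusedSectionVars false
set_option linter.unusedVariables false

namespace Pool.Agent.KS6_20.AE

open NumberField IsDedekindDomain Finset Pool.Agent.H691R3 Pool.Agent.W223.AK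
open Pool.Agent.W358.AK (fib_bound)

/-! ### Combinatorial Cauchy-Schwarz without the diagonal -/

theorem cs_off (hCS : StmtCS) {α β : Type} [DecidableEq α] [DecidableEq β] (R : Finset (α × β))
    (SA : Finset (α × α)) (SB : Finset (β × β)) (B : Finset β)
    (hA : ∀ p ∈ R, ∀ p' ∈ R, p.2 = p'.2 → p.1 ≠ p'.1 → (p.1, p'.1) ∈ SA)
    (hB : ∀ p ∈ R, ∀ p' ∈ R, p.1 = p'.1 → p.2 ≠ p'.2 → (p.2, p'.2) ∈ SB)
    (hBm : ∀ p ∈ R, p.2 ∈ B) (M v a b : ℝ) (hM : 0 ≤ M)
    (h1 : (B.card : ℝ) ≤ M * Real.exp v) (h2 : (SA.card : ℝ) ≤ M * Real.exp a)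
    (h3 : (SB.card : ℝ) ≤ M * Real.exp b) :
    (R.card : ℝ) ≤ 3 * M * Real.exp (max v (1 / 2 * (a + max v b))) := by
  set R1 := R.filter fun p => ∃ p' ∈ R, p'.2 = p.2 ∧ p'.1 ≠ p.1 with hR1
  set R0 := R.filter fun p => ¬ ∃ p' ∈ R, p'.2 = p.2 ∧ p'.1 ≠ p.1 with hR0
  have hcard : R1.card + R0.card = R.card := Finset.card_filter_add_card_filter_not _
  have hR0B : R0.card ≤ B.card := by
    refine Finset.card_le_card_of_injOn (fun p => p.2) ?_ ?_
    · intro p hp
      rw [Finset.mem_coe, hR0, Finset.mem_filter] at hp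
      exact hBm p hp.1
    · intro p hp p' hp' h
      rw [Finset.mem_coe, hR0, Finset.mem_filter] at hp hp'
      by_contra hcon
      apply hp.2
      refine ⟨p', hp'.1, h.symm, ?_⟩
      intro h4
      exact hcon (Prod.ext h4.symm h)
  set SA1 : Finset (α × α) := SA ∪ R1.image (fun p => (p.1, p.1)) with hSA1
  set SB1 : Finset (β × β) := SB ∪ B.image (fun b => (b, b)) with hSB1
  have hcs := hCS α β R1 SA1 SB1 ?_ ?_
  rotate_left
  · intro p hp p' hp' h
    rw [hR1, Finset.mem_filter] at hp hp'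
    rw [hSA1, Finset.mem_union]
    by_cases h5 : p.1 = p'.1
    · right
      rw [Finset.mem_image]
      exact ⟨p, by rw [hR1, Finset.mem_filter]; exact hp, by rw [← h5]⟩
    · left
      exact hA p hp.1 p' hp'.1 h h5
  · intro p hp p' hp' h
    rw [hR1, Finset.mem_filter] at hp hp'
    rw [hSB1, Finset.mem_union]
    by_cases h5 : p.2 = p'.2
    · right
      rw [Finset.mem_image]
      exact ⟨p.2, hBm p hp.1, by rw [← h5]⟩
    · left
      exact hB p hp.1 p' hp'.1 h h5
  have hSA1c : SA1.card ≤ 2 * SA.card := by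
    have e1 : (R1.image (fun p => (p.1, p.1))).card ≤ SA.card := by
      have e2 : R1.image (fun p => (p.1, p.1)) ⊆ SA.image (fun s => (s.1, s.1)) := by
        intro s hs
        rw [Finset.mem_image] at hs
        obtain ⟨p, hp, rfl⟩ := hs
        rw [hR1, Finset.mem_filter] at hp
        obtain ⟨hp1, p', hp', h6, h7⟩ := hp
        rw [Finset.mem_image]
        exact ⟨(p.1, p'.1), hA p hp1 p' hp' h6.symm h7.symm, rfl⟩
      exact (Finset.card_le_card e2).trans Finset.card_image_le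
    have e3 := Finset.card_union_le SA (R1.image (fun p => (p.1, p.1)))
    rw [← hSA1] at e3
    omega
  have hSB1c : SB1.card ≤ SB.card + B.card := by
    have e3 := Finset.card_union_le SB (B.image (fun b => (b, b)))
    have e4 : (B.image (fun b => (b, b))).card ≤ B.card := Finset.card_image_le
    rw [← hSB1] at e3
    omega
  have k1 : (SA1.card : ℝ) ≤ 2 * (M * Real.exp a) := by
    have : (SA1.card : ℝ) ≤ 2 * SA.card := by exact_mod_cast hSA1c
    linarith
  have hvT : Real.exp v ≤ Real.exp (max v b) := Real.exp_le_exp.mpr (le_max_left _ _)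
  have hbT : Real.exp b ≤ Real.exp (max v b) := Real.exp_le_exp.mpr (le_max_right _ _)
  have k2 : (SB1.card : ℝ) ≤ 2 * (M * Real.exp (max v b)) := by
    have h6 : (SB1.card : ℝ) ≤ SB.card + B.card := by exact_mod_cast hSB1c
    have h7 := mul_le_mul_of_nonneg_left hvT hM
    have h8 := mul_le_mul_of_nonneg_left hbT hM
    linarith
  set T := max v (1 / 2 * (a + max v b)) with hT
  have k3 : (R1.card : ℝ) ^ 2 ≤ (2 * (M * Real.exp T)) ^ 2 := by
    refine hcs.trans ((mul_le_mul k1 k2 (Nat.cast_nonneg _) (by positivity)).trans ?_)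
    have e1 : Real.exp a * Real.exp (max v b) ≤ Real.exp T ^ 2 := by
      rw [← Real.exp_add, sq, ← Real.exp_add, Real.exp_le_exp]
      have := le_max_right v (1 / 2 * (a + max v b))
      linarith
    have e2 : 2 * (M * Real.exp a) * (2 * (M * Real.exp (max v b))) =
        4 * M ^ 2 * (Real.exp a * Real.exp (max v b)) := by ring
    rw [e2]
    calc _ ≤ 4 * M ^ 2 * Real.exp T ^ 2 := mul_le_mul_of_nonneg_left e1 (by positivity)
      _ = _ := by ring
  have k4 : (R1.card : ℝ) ≤ 2 * (M * Real.exp T) :=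
    (pow_le_pow_iff_left₀ (Nat.cast_nonneg _) (by positivity) two_ne_zero).mp k3
  have k5 : (R0.card : ℝ) ≤ M * Real.exp T := by
    have e1 : (R0.card : ℝ) ≤ B.card := by exact_mod_cast hR0B
    refine e1.trans (h1.trans (mul_le_mul_of_nonneg_left (Real.exp_le_exp.mpr ?_) hM))
    exact le_max_left _ _
  have k6 : (R.card : ℝ) = R1.card + R0.card := by rw [← hcard]; push_cast; ring
  rw [k6]
  linarith

variable {K : Type} [Field K] [NumberField K]

/-! ### Unions and intersections of supports -/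

theorem rl_add_inf (a b : Idl K) : rl (a + b) + rl (a ⊓ b) = rl a + rl b := by
  classical
  set s := a.support ∪ b.support with hs
  have h1 : (a + b).support ⊆ s := Finsupp.support_add
  have h2 : (a ⊓ b).support ⊆ s := by
    intro v hv
    rw [Finsupp.mem_support_iff, Finsupp.inf_apply] at hv
    rw [hs, Finset.mem_union, Finsupp.mem_support_iff]
    left
    intro h
    apply hv
    rw [h]
    exact Nat.min_eq_left (Nat.zero_le _) 
  rw [rl_eq_sum_ite (a + b) h1, rl_eq_sum_ite (a ⊓ b) h2, rl_eq_sum_ite a (subset_union_left),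
    rl_eq_sum_ite b (subset_union_right), ← Finset.sum_add_distrib, ← Finset.sum_add_distrib]
  refine Finset.sum_congr rfl fun v _ => ?_
  rw [Finsupp.add_apply, Finsupp.inf_apply]
  by_cases ha : a v = 0
  · rw [ha]
    simp
  · by_cases hb : b v = 0
    · rw [hb]
      simp [ha]
    · have h3 : a v + b v ≠ 0 := by omega
      have h4 : a v ⊓ b v ≠ 0 := by
        show min (a v) (b v) ≠ 0
        omega
      rw [if_neg h3, if_neg h4, if_neg ha, if_neg hb]

/-- common part of the primes with exponents in `J` -/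
noncomputable def cm (a b : Idl K) (J : Set ℕ) : Idl K := ex a J ⊓ ex b J

theorem mem_cm_support (a b : Idl K) (J : Set ℕ) (v : Pr K) :
    v ∈ (cm a b J).support ↔ (a v ≠ 0 ∧ a v ∈ J) ∧ (b v ≠ 0 ∧ b v ∈ J) := by
  classical
  unfold cm
  rw [Finsupp.mem_support_iff, Finsupp.inf_apply, ← ex_support a J v, ← ex_support b J v,
    Finsupp.mem_support_iff, Finsupp.mem_support_iff]
  show min (ex a J v) (ex b J v) ≠ 0 ↔ _
  omega

theorem cm_mono (a b : Idl K) {J J' : Set ℕ} (h : J ⊆ J') : rl (cm a b J) ≤ rl (cm a b J') := by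
  refine rl_mono fun v hv => ?_
  rw [mem_cm_support] at hv ⊢
  exact ⟨⟨hv.1.1, h hv.1.2⟩, ⟨hv.2.1, h hv.2.2⟩⟩

/-- pairs of ideals with given size of the common radical -/
theorem pairs_count (hC : StmtCNT K) (hF : StmtFAC K) (ε : ℝ) (hε : 0 < ε) :
    ∃ D : ℝ, 0 < D ∧ ∀ (X c : ℝ) (T : Finset (Idl K × Idl K)), 0 ≤ X →
      (∀ t ∈ T, rl (t.1 + t.2) ≤ c ∧ len (t.1 + t.2) ≤ X) →
      (T.card : ℝ) ≤ D * Real.exp (c + ε * X) := by
  classical
  obtain ⟨D1, hD1, h1⟩ := hC (ε / 2) (by positivity)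
  obtain ⟨D2, hD2, h2⟩ := hF 2 (ε / 2) (by positivity)
  refine ⟨D1 * D2, by positivity, ?_⟩
  intro X c T hX hT
  have hfib : ∀ b ∈ T.image (fun t => t.1 + t.2),
      ((T.filter (fun t => t.1 + t.2 = b)).card : ℝ) ≤ D2 * Real.exp (ε / 2 * X) := by
    intro b hb
    rw [Finset.mem_image] at hb
    obtain ⟨t0, ht0, rfl⟩ := hb
    set g : Idl K × Idl K → (Fin 2 → Idl K) := fun t => ![t.1, t.2] with hg
    have hinj : Set.InjOn g (T.filter (fun t => t.1 + t.2 = t0.1 + t0.2)) := by
      intro t _ t' _ h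
      have e0 := congrFun h 0
      have e1 := congrFun h 1
      simp only [hg, Matrix.cons_val_zero, Matrix.cons_val_one] at e0 e1
      exact Prod.ext e0 e1
    rw [← Finset.card_image_of_injOn hinj]
    refine (h2 (t0.1 + t0.2) _ ?_).trans ?_
    · intro x hx
      rw [Finset.mem_image] at hx
      obtain ⟨t, ht, rfl⟩ := hx
      rw [Finset.mem_filter] at ht
      rw [Fin.sum_univ_two]
      simp only [hg, Matrix.cons_val_zero, Matrix.cons_val_one]
      exact ht.2
    · refine mul_le_mul_of_nonneg_left (Real.exp_le_exp.mpr ?_) hD2.le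
      exact mul_le_mul_of_nonneg_left (hT t0 ht0).2 (by positivity)
  refine (fib_bound T _ _ hfib).trans ?_
  have himg : ((T.image (fun t => t.1 + t.2)).card : ℝ) ≤ D1 * Real.exp (c + ε / 2 * X) := by
    refine h1 X c _ hX ?_
    intro a ha
    rw [Finset.mem_image] at ha
    obtain ⟨t, ht, rfl⟩ := ha
    exact hT t ht
  refine (mul_le_mul_of_nonneg_right himg (by positivity)).trans (le_of_eq ?_)
  have e : Real.exp (c + ε * X) = Real.exp (c + ε / 2 * X) * Real.exp (ε / 2 * X) := by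
    rw [← Real.exp_add]; congr 1; ring
  rw [e]
  ring

/-! ### Roots of ideals -/

/-- exponents divided by `k` -/
noncomputable def rt (k : ℕ) (a : Idl K) : Idl K := a.mapRange (fun m => m / k) (by simp)

theorem rt_apply (k : ℕ) (a : Idl K) (v : Pr K) : rt k a v = a v / k := by
  unfold rt
  rw [Finsupp.mapRange_apply]

theorem nsmul_rt {k : ℕ} {a : Idl K} (h : ∀ v, k ∣ a v) : k • rt k a = a := by
  ext v
  rw [Finsupp.smul_apply, rt_apply, smul_eq_mul]
  exact Nat.mul_div_cancel' (h v)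

theorem ex_compl_dvd {k : ℕ} {I : Set ℕ} (hI : ∀ m, 1 ≤ m → m ∉ I → k ∣ m) (a : Idl K) (v : Pr K) :
    k ∣ ex a Iᶜ v := by
  classical
  rw [ex_apply]
  split_ifs with h
  · by_cases h0 : a v = 0
    · rw [h0]; exact dvd_zero k
    · exact hI _ (Nat.one_le_iff_ne_zero.mpr h0) h
  · exact dvd_zero k

theorem gen_split (ϖ : Pr K → K) {k : ℕ} {I : Set ℕ} (hI : ∀ m, 1 ≤ m → m ∉ I → k ∣ m)
    (a : Idl K) : gen ϖ a = gen ϖ (ex a I) * gen ϖ (rt k (ex a Iᶜ)) ^ k := by
  conv_lhs => rw [← ex_add_compl a I, ← nsmul_rt (ex_compl_dvd hI a)]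
  rw [gen_add, gen_nsmul]

theorem rt_le (k : ℕ) (a : Idl K) : rt k a ≤ a := by
  intro v
  rw [rt_apply]
  exact Nat.div_le_self _ _

theorem OffS.rt {S : Finset (Pr K)} {a : Idl K} (h : OffS S a) (k : ℕ) :
    OffS S (AE.rt k a) := h.mono (rt_le k a)

theorem sub_add_inf (a b : Idl K) : (a - (a ⊓ b)) + (a ⊓ b) = a := by
  ext v
  rw [Finsupp.add_apply, Finsupp.tsub_apply, Finsupp.inf_apply]
  show a v - min (a v) (b v) + min (a v) (b v) = a v
  omega

theorem sub_add_inf' (a b : Idl K) : (b - (a ⊓ b)) + (a ⊓ b) = b := by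
  ext v
  rw [Finsupp.add_apply, Finsupp.tsub_apply, Finsupp.inf_apply]
  show b v - min (a v) (b v) + min (a v) (b v) = b v
  omega

theorem cop_sub_inf (a b : Idl K) : Cop (a - (a ⊓ b)) (b - (a ⊓ b)) := by
  intro v
  rw [Finsupp.tsub_apply, Finsupp.tsub_apply, Finsupp.inf_apply]
  show a v - min (a v) (b v) = 0 ∨ b v - min (a v) (b v) = 0
  omega

theorem gen_div_inf {S : Finset (Pr K)} {ϖ : Pr K → K} {C : ℝ} (hU : Unif S ϖ C) (a b : Idl K) :
    gen ϖ a / gen ϖ b = gen ϖ (a - (a ⊓ b)) / gen ϖ (b - (a ⊓ b)) := by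
  conv_lhs => rw [← sub_add_inf a b]
  nth_rewrite 3 [← sub_add_inf' a b]
  rw [gen_add, gen_add]
  have h1 := gen_ne hU (a ⊓ b)
  have h2 := gen_ne hU (b - (a ⊓ b))
  field_simp

end Pool.Agent.KS6_20.AE
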