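import Mathlib
import Pool.Agent.KS6_20.AE.Off

/-!
# Off-diagonal pairs: the bound for a cell of pairs, and the gap for the common part
-/

set_option autoImplicit false
set_option linter.unusedSectionVars false
set_option linter.unusedVariables false

namespace Pool.Agent.KS6_20.AE

open NumberField IsDedekindDomain Finset Pool.Agent.H691R3 Pool.Agent.W223.AK
open Pool.Agent.W358.AK (fib_bound)

variable {K : Type} [Field K] [NumberField K]

/-- the conditions on a pair of ideals -/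
structure Pg (S : Finset (Pr K)) (ϖ : Pr K → K) (f : Idl K) (V : Finset (Pl K)) (σ : Pl K → ℝ)
    (A X : ℝ) (t : Idl K × Idl K) : Prop where
  off1 : OffS S t.1
  off2 : OffS S t.2
  cop1 : Cop t.1 f
  cop2 : Cop t.2 f
  len1 : len t.1 ≤ X
  len2 : len t.2 ≤ X
  cl : Cl f V σ A (gen ϖ t.1 / gen ϖ t.2)

theorem rl_rt_inf {k : ℕ} (hk : 1 ≤ k) {I : Set ℕ} (hI : ∀ m, 1 ≤ m → m ∉ I → k ∣ m)
    (a b : Idl K) : rl (rt k (ex a Iᶜ) ⊓ rt k (ex b Iᶜ)) = rl (cm a b Iᶜ) := by
  classical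
  unfold rl
  refine Finset.sum_congr ?_ fun _ _ => rfl
  ext v
  have key : ∀ c : Idl K, rt k (ex c Iᶜ) v ≠ 0 ↔ ex c Iᶜ v ≠ 0 := by
    intro c
    rw [rt_apply]
    have h1 := ex_compl_dvd hI c v
    constructor
    · intro h h0
      rw [h0] at h
      simp at h
    · intro h h0
      have h2 := Nat.eq_mul_of_div_eq_right h1 h0
      omega
  unfold cm
  rw [Finsupp.mem_support_iff, Finsupp.mem_support_iff, Finsupp.inf_apply, Finsupp.inf_apply]
  have k1 := key a
  have k2 := key b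
  show min (rt k (ex a Iᶜ) v) (rt k (ex b Iᶜ) v) ≠ 0 ↔ min (ex a Iᶜ v) (ex b Iᶜ v) ≠ 0
  omega

theorem off_cell {S : Finset (Pr K)} {ϖ : Pr K → K} {C : ℝ} (hU : Unif S ϖ C)
    (hP : StmtP1 S ϖ) (hC : StmtCNT K) (hF : StmtFAC K) (k : ℕ) (hk : 1 ≤ k) (hS : SGood S k)
    (ε A : ℝ) (hε : 0 < ε) (hA : 0 ≤ A) : ∃ D : ℝ, 0 < D ∧
    ∀ (X U γ₁ γ₂ w : ℝ) (I : Set ℕ) (f : Idl K) (V : Finset (Pl K)) (σ : Pl K → ℝ)
      (Q : Finset (Idl K × Idl K)),
    0 ≤ X → w ≤ X → (∀ m, 1 ≤ m → m ∉ I → k ∣ m) → OffS S f → len f ≤ X → V ⊆ Spl S →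
    (∀ v ∈ V, 0 ≤ σ v) → (∀ t ∈ Q, Pg S ϖ f V σ A X t) →
    (∀ t ∈ Q, len (ex t.1 Iᶜ) ≤ w ∧ len (ex t.2 Iᶜ) ≤ w) →
    (∀ t ∈ Q, rl (ex t.1 I + ex t.2 I) ≤ U) →
    (∀ t ∈ Q, γ₁ ≤ rl (cm t.1 t.2 Iᶜ) ∧ rl (cm t.1 t.2 Iᶜ) ≤ γ₂) →
    (Q.card : ℝ) ≤ D * Real.exp (ε * X) * (Real.exp (U + γ₂) *
      (1 + Real.exp (2 * w / k - 2 * γ₁ - lenM f V σ))) := by
  classical
  obtain ⟨D1, hD1, h1⟩ := pairs_count hC hF (ε / 8) (by positivity)
  obtain ⟨D2, hD2, h2⟩ := hC (ε / 4) (by positivity)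
  obtain ⟨D3, hD3, h3⟩ := hP k hk hS (ε / 2) A (by positivity) hA
  refine ⟨D1 * D2 * D3, by positivity, ?_⟩
  intro X U γ₁ γ₂ w I f V σ Q hX hwX hI hf hlf hV hσ hQ hw hUb hγ
  have hk0 : (0 : ℝ) < k := by exact_mod_cast hk
  have hk1 : (1 : ℝ) ≤ k := by exact_mod_cast hk
  set hh : Idl K × Idl K → Idl K := fun t => rt k (ex t.1 Iᶜ) ⊓ rt k (ex t.2 Iᶜ) with hhh
  set φ : Idl K × Idl K → (Idl K × Idl K) × Idl K := fun t => ((ex t.1 I, ex t.2 I), hh t) with hφ
  have hhle : ∀ t ∈ Q, len (hh t) ≤ X := by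
    intro t ht
    have e1 : hh t ≤ t.1 := by
      have e2 : hh t ≤ rt k (ex t.1 Iᶜ) := inf_le_left
      exact e2.trans ((rt_le k _).trans (ex_le _ _))
    exact (len_mono e1).trans (hQ t ht).len1
  have himg : ((Q.image φ).card : ℝ) ≤ (D1 * Real.exp (U + ε / 8 * (2 * X))) *
      (D2 * Real.exp (γ₂ + ε / 4 * X)) := by
    have hsub : Q.image φ ⊆ (Q.image fun t => (ex t.1 I, ex t.2 I)) ×ˢ (Q.image hh) := by
      intro b hb
      rw [Finset.mem_image] at hb
      obtain ⟨t, ht, rfl⟩ := hb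
      rw [Finset.mem_product]
      exact ⟨Finset.mem_image.mpr ⟨t, ht, rfl⟩, Finset.mem_image.mpr ⟨t, ht, rfl⟩⟩
    have h4 : ((Q.image φ).card : ℝ) ≤ ((Q.image fun t => (ex t.1 I, ex t.2 I)).card : ℝ) *
        ((Q.image hh).card : ℝ) := by
      have := Finset.card_le_card hsub
      rw [Finset.card_product] at this
      exact_mod_cast this
    refine h4.trans (mul_le_mul ?_ ?_ (Nat.cast_nonneg _) (by positivity))
    · refine h1 (2 * X) U _ (by linarith) ?_
      intro b hb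
      rw [Finset.mem_image] at hb
      obtain ⟨t, ht, rfl⟩ := hb
      refine ⟨hUb t ht, ?_⟩
      rw [len_add]
      have e1 := (len_mono (ex_le t.1 I)).trans (hQ t ht).len1
      have e2 := (len_mono (ex_le t.2 I)).trans (hQ t ht).len2
      simp only
      linarith
    · refine h2 X γ₂ _ hX ?_
      intro b hb
      rw [Finset.mem_image] at hb
      obtain ⟨t, ht, rfl⟩ := hb
      refine ⟨?_, hhle t ht⟩
      rw [hhh]
      simp only
      rw [rl_rt_inf hk hI]
      exact (hγ t ht).2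
  have hfib : ∀ b ∈ Q.image φ, ((Q.filter (fun t => φ t = b)).card : ℝ) ≤
      D3 * Real.exp (ε / 2 * X) * (1 + Real.exp (2 * w / k - 2 * γ₁ - lenM f V σ)) := by
    intro b hb
    rw [Finset.mem_image] at hb
    obtain ⟨t0, ht0, hb0⟩ := hb
    set ψ : Idl K × Idl K → Idl K × Idl K :=
      fun t => (rt k (ex t.1 Iᶜ) - hh t, rt k (ex t.2 Iᶜ) - hh t) with hψ
    have hinj : Set.InjOn ψ (Q.filter (fun t => φ t = b)) := by
      intro t ht t' ht' htt
      rw [Finset.mem_coe, Finset.mem_filter] at ht ht'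
      have e1 : φ t = φ t' := ht.2.trans ht'.2.symm
      rw [hφ] at e1
      rw [hψ] at htt
      simp only [Prod.mk.injEq] at e1 htt
      obtain ⟨⟨e2, e3⟩, e4⟩ := e1
      have g1 := sub_add_inf (rt k (ex t.1 Iᶜ)) (rt k (ex t.2 Iᶜ))
      have g1' := sub_add_inf (rt k (ex t'.1 Iᶜ)) (rt k (ex t'.2 Iᶜ))
      have g2 := sub_add_inf' (rt k (ex t.1 Iᶜ)) (rt k (ex t.2 Iᶜ))
      have g2' := sub_add_inf' (rt k (ex t'.1 Iᶜ)) (rt k (ex t'.2 Iᶜ))
      have f1 : rt k (ex t.1 Iᶜ) = rt k (ex t'.1 Iᶜ) := by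
        rw [← g1, ← g1']
        exact congrArg₂ (· + ·) htt.1 e4
      have f2 : rt k (ex t.2 Iᶜ) = rt k (ex t'.2 Iᶜ) := by
        rw [← g2, ← g2']
        exact congrArg₂ (· + ·) htt.2 e4
      have m1 : ex t.1 Iᶜ = ex t'.1 Iᶜ := by
        rw [← nsmul_rt (ex_compl_dvd hI t.1), ← nsmul_rt (ex_compl_dvd hI t'.1), f1]
      have m2 : ex t.2 Iᶜ = ex t'.2 Iᶜ := by
        rw [← nsmul_rt (ex_compl_dvd hI t.2), ← nsmul_rt (ex_compl_dvd hI t'.2), f2]
      refine Prod.ext ?_ ?_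
      · rw [← ex_add_compl t.1 I, ← ex_add_compl t'.1 I, e2, m1]
      · rw [← ex_add_compl t.2 I, ← ex_add_compl t'.2 I, e3, m2]
    rw [← Finset.card_image_of_injOn hinj]
    have hlenrt : ∀ c : Idl K, (k : ℝ) * len (rt k (ex c Iᶜ)) = len (ex c Iᶜ) := by
      intro c
      conv_rhs => rw [← nsmul_rt (ex_compl_dvd hI c)]
      rw [len_nsmul]
    have hsubl : ∀ c d : Idl K, d ≤ c → len (c - d) = len c - len d := by
      intro c d hcd
      have e1 : c - d + d = c := tsub_add_cancel_of_le hcd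
      have e2 := congrArg len e1
      rw [len_add] at e2
      linarith
    -- all the elements of the fibre have the same `hh`
    have hhb : ∀ t ∈ Q.filter (fun t => φ t = b), hh t = b.2 := by
      intro t ht
      have := (Finset.mem_filter.mp ht).2
      rw [← this]
    have hb2 : hh t0 = b.2 := by rw [← hb0]
    have hbound : ∀ t ∈ Q.filter (fun t => φ t = b), len (ψ t).1 ≤ w / k - len b.2 ∧
        len (ψ t).2 ≤ w / k - len b.2 := by
      intro t ht
      have htQ := (Finset.mem_filter.mp ht).1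
      obtain ⟨w1, w2⟩ := hw t htQ
      have c1 := hlenrt t.1
      have c2 := hlenrt t.2
      have e1 : len (rt k (ex t.1 Iᶜ)) ≤ w / k := by
        rw [le_div_iff₀ hk0]; linarith
      have e2 : len (rt k (ex t.2 Iᶜ)) ≤ w / k := by
        rw [le_div_iff₀ hk0]; linarith
      rw [← hhb t ht]
      constructor
      · show len (rt k (ex t.1 Iᶜ) - hh t) ≤ _
        rw [hsubl _ _ (show hh t ≤ rt k (ex t.1 Iᶜ) from inf_le_left)]
        linarith
      · show len (rt k (ex t.2 Iᶜ) - hh t) ≤ _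
        rw [hsubl _ _ (show hh t ≤ rt k (ex t.2 Iᶜ) from inf_le_right)]
        linarith
    have ht0' : t0 ∈ Q.filter (fun t => φ t = b) := Finset.mem_filter.mpr ⟨ht0, hb0⟩
    have hbb0 : 0 ≤ w / k - len b.2 := (len_nonneg _).trans (hbound t0 ht0').1
    have hbbX : w / k - len b.2 ≤ X := by
      have e1 := len_nonneg b.2
      have e2 : w / k ≤ X := by
        rw [div_le_iff₀ hk0]
        nlinarith
      linarith
    have h5 := h3 X (w / k - len b.2) f V σ (gen ϖ b.1.1 / gen ϖ b.1.2)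
      ((Q.filter (fun t => φ t = b)).image ψ) hbb0 hbbX hf hlf hV hσ
      (div_ne_zero (gen_ne hU _) (gen_ne hU _)) ?_
    · refine h5.trans (mul_le_mul_of_nonneg_left ?_ (by positivity))
      have e1 : γ₁ ≤ len b.2 := by
        rw [← hb2]
        have e2 := (hγ t0 ht0).1
        rw [← rl_rt_inf hk hI] at e2
        exact e2.trans (rl_le_len _)
      have e3 : Real.exp (2 * (w / k - len b.2) - lenM f V σ) ≤
          Real.exp (2 * w / k - 2 * γ₁ - lenM f V σ) := by
        rw [Real.exp_le_exp]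
        have : 2 * w / k = 2 * (w / k) := by ring
        linarith
      linarith
    · intro u hu
      rw [Finset.mem_image] at hu
      obtain ⟨t, ht, rfl⟩ := hu
      have htQ := (Finset.mem_filter.mp ht).1
      have hg := hQ t htQ
      have l1 : (ψ t).1 ≤ t.1 := by
        show rt k (ex t.1 Iᶜ) - hh t ≤ t.1
        exact tsub_le_self.trans ((rt_le k _).trans (ex_le _ _))
      have l2 : (ψ t).2 ≤ t.2 := by
        show rt k (ex t.2 Iᶜ) - hh t ≤ t.2
        exact tsub_le_self.trans ((rt_le k _).trans (ex_le _ _))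
      refine ⟨hg.off1.mono l1, hg.off2.mono l2, hg.cop1.mono_left l1, hg.cop2.mono_left l2,
        cop_sub_inf _ _, (hbound t ht).1, (hbound t ht).2, ?_⟩
      have e1 : gen ϖ b.1.1 / gen ϖ b.1.2 * (gen ϖ (ψ t).1 / gen ϖ (ψ t).2) ^ k =
          gen ϖ t.1 / gen ϖ t.2 := by
        have e2 := gen_div_inf hU (rt k (ex t.1 Iᶜ)) (rt k (ex t.2 Iᶜ))
        have e3 : gen ϖ (ψ t).1 / gen ϖ (ψ t).2 =
            gen ϖ (rt k (ex t.1 Iᶜ)) / gen ϖ (rt k (ex t.2 Iᶜ)) := e2.symm
        have e4 : b.1.1 = ex t.1 I ∧ b.1.2 = ex t.2 I := by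
          have := (Finset.mem_filter.mp ht).2
          rw [← this]
          exact ⟨rfl, rfl⟩
        rw [e3, e4.1, e4.2, gen_split ϖ hI t.1, gen_split ϖ hI t.2, div_pow, div_mul_div_comm]
      rw [e1]
      exact hg.cl
  refine (fib_bound Q φ _ hfib).trans ?_
  refine (mul_le_mul_of_nonneg_right himg (by positivity)).trans (le_of_eq ?_)
  have e1 : Real.exp (ε * X) * Real.exp (U + γ₂) = Real.exp (U + ε / 8 * (2 * X)) *
      Real.exp (γ₂ + ε / 4 * X) * Real.exp (ε / 2 * X) := by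
    rw [← Real.exp_add, ← Real.exp_add, ← Real.exp_add]
    congr 1
    ring
  linear_combination (-(D1 * D2 * D3 * (1 + Real.exp (2 * w / k - 2 * γ₁ - lenM f V σ)))) * e1

/-- the gap principle for the common part of two different ideals -/
theorem gap {S : Finset (Pr K)} {ϖ : Pr K → K} {C : ℝ} (hU : Unif S ϖ C) {f : Idl K}
    {V : Finset (Pl K)} {σ : Pl K → ℝ} {A B X : ℝ} (hA : 0 ≤ A) (hB : 0 ≤ B) (hf : OffS S f)
    (hV : V ⊆ Spl S) {t : Idl K × Idl K} (ht : Pg S ϖ f V σ A X t) (hne : t.1 ≠ t.2)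
    (hb : ∀ v ∈ Spl S, mt v * Real.log (av v (gen ϖ t.1 / gen ϖ t.2)) ≤ B) :
    len (t.1 ⊓ t.2) ≤ len t.2 - lenM f V σ +
      (Spl S).card * (A + 2 * Real.log (Real.exp B + 1)) := by
  classical
  set a := t.1 - (t.1 ⊓ t.2) with ha
  set b := t.2 - (t.1 ⊓ t.2) with hb'
  have hle1 : a ≤ t.1 := tsub_le_self
  have hle2 : b ≤ t.2 := tsub_le_self
  have hlog0 : 0 ≤ Real.log (Real.exp B + 1) :=
    Real.log_nonneg (by have := Real.exp_pos B; linarith)
  have e0 : Pool.Agent.W440.AK.zz ϖ (a, b) = gen ϖ t.1 / gen ϖ t.2 :=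
    (gen_div_inf hU t.1 t.2).symm
  have e1 : Pool.Agent.W440.AK.zz ϖ ((0 : Idl K), (0 : Idl K)) = 1 := by
    unfold Pool.Agent.W440.AK.zz
    simp
  have hz : OffS S (0 : Idl K) := fun v _ => rfl
  have hcz : Cop (0 : Idl K) f := fun v => Or.inl rfl
  have hcz' : Cop (0 : Idl K) (0 : Idl K) := fun v => Or.inl rfl
  have hab : Cop a b := cop_sub_inf t.1 t.2
  have hyne : Pool.Agent.W440.AK.zz ϖ (a, b) ≠ Pool.Agent.W440.AK.zz ϖ ((0 : Idl K), (0 : Idl K)) := by
    intro h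
    have h1 := Pool.Agent.W440.AK.zz_inj hU (t := (a, b)) (t' := ((0 : Idl K), (0 : Idl K)))
      (ht.off1.mono hle1) (ht.off2.mono hle2) hab hz hz hcz' h
    have h2 : a = 0 ∧ b = 0 := by
      simp only [Prod.mk.injEq] at h1
      exact h1
    apply hne
    have g1 := sub_add_inf t.1 t.2
    have g2 := sub_add_inf' t.1 t.2
    rw [← ha, h2.1] at g1
    rw [← hb', h2.2] at g2
    exact g1.symm.trans g2
  have h1 := Pool.Agent.W440.AK.diff_lower hU hf (t := (a, b)) (t' := ((0 : Idl K), (0 : Idl K)))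
    (ht.off1.mono hle1) (ht.off2.mono hle2) hz hz (ht.cop1.mono_left hle1)
    (ht.cop2.mono_left hle2) hcz hcz (by
      intro v hv
      rw [e0, e1, div_one]
      exact ht.cl.1 v hv) hyne
  rw [e0, e1] at h1
  set y := gen ϖ t.1 / gen ϖ t.2 with hy
  have hy1 : y - 1 ≠ 0 := by
    intro h
    apply hyne
    rw [e0, e1]
    exact sub_eq_zero.mp h
  have hterm : ∀ v ∈ Spl S, mt v * Real.log (av v (y - 1)) ≤
      (A + 2 * Real.log (Real.exp B + 1)) - (if v ∈ V then σ v else 0) := by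
    intro v hv
    have hpos : 0 < av v (y - 1) := (av v).pos hy1
    have hm1 := Pool.Agent.W440.AK.mt_one_le v
    have hm2 := Pool.Agent.W440.AK.mt_le_two v
    by_cases hvV : v ∈ V
    · rw [if_pos hvV]
      have h2 := ht.cl.2 v hvV
      have h3 := Real.log_le_log (Real.rpow_pos_of_pos hpos _) h2
      rw [Real.log_exp, Real.log_rpow hpos] at h3
      linarith
    · rw [if_neg hvV]
      have h2 := hb v hv
      have hy0 : y ≠ 0 := div_ne_zero (gen_ne hU _) (gen_ne hU _)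
      have hyp : 0 < av v y := (av v).pos hy0
      have h3 : av v y ≤ Real.exp B := by
        rw [← Real.log_le_iff_le_exp hyp]
        by_contra hcon
        push Not at hcon
        nlinarith
      have h4 : av v (y - 1) ≤ Real.exp B + 1 := by
        have h5 := (av v).add_le y (-1)
        rw [(av v).map_neg, (av v).map_one, ← sub_eq_add_neg] at h5
        linarith
      have h5 : Real.log (av v (y - 1)) ≤ Real.log (Real.exp B + 1) := Real.log_le_log hpos h4
      have h6 : mt v * Real.log (av v (y - 1)) ≤ mt v * Real.log (Real.exp B + 1) :=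
        mul_le_mul_of_nonneg_left h5 (by linarith)
      have h7 : mt v * Real.log (Real.exp B + 1) ≤ 2 * Real.log (Real.exp B + 1) :=
        mul_le_mul_of_nonneg_right hm2 hlog0
      linarith
  have hsum := Finset.sum_le_sum hterm
  rw [Finset.sum_sub_distrib, Finset.sum_const, nsmul_eq_mul, Finset.sum_ite_mem,
    Finset.inter_eq_right.mpr hV] at hsum
  have hlb : len b = len t.2 - len (t.1 ⊓ t.2) := by
    have e2 := congrArg len (sub_add_inf' t.1 t.2)
    rw [len_add] at e2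
    rw [hb']
    linarith
  have hl0 : len (0 : Idl K) = 0 := len_zero
  simp only at h1
  rw [hl0, hlb] at h1
  unfold lenM
  linarith

end Pool.Agent.KS6_20.AE
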