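import Mathlib
import Pool.Agent.KS6_20.AE.Off2

/-!
# Off-diagonal pairs: the options
-/

set_option autoImplicit false
set_option linter.unusedSectionVars false
set_option linter.unusedVariables false

namespace Pool.Agent.KS6_20.AE

open NumberField IsDedekindDomain Finset Pool.Agent.H691R3 Pool.Agent.W223.AK
open Pool.Agent.W358.AK (fib_bound)
open Pool.Agent.W108.AK (cells)

variable {K : Type} [Field K] [NumberField K]

/-- the ways to bound the number of off-diagonal pairs -/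
inductive Opt
  | zero
  | one (k μ : ℕ) (I : Set ℕ) (c w : ℝ)
  | two (k₁ : ℕ) (I₁ : Set ℕ) (c₁ w₁ : ℝ) (k₂ : ℕ) (I₂ : Set ℕ) (c₂ w₂ : ℝ)

/-- the exponents outside `I` are multiples of `k` -/
def Mul (k : ℕ) (I : Set ℕ) : Prop := ∀ m, 1 ≤ m → m ∉ I → k ∣ m

def Opt.Valid (n : ℕ) : Opt → Prop
  | .zero => True
  | .one k μ I _ _ => (1 ≤ k ∧ k ≤ n) ∧ Mul k I ∧ 1 ≤ μ ∧ ∀ m, 1 ≤ m → m ∉ I → μ ≤ m
  | .two k₁ I₁ _ _ k₂ I₂ _ _ => (1 ≤ k₁ ∧ k₁ ≤ n) ∧ Mul k₁ I₁ ∧ (1 ≤ k₂ ∧ k₂ ≤ n) ∧ Mul k₂ I₂ ∧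
      ∀ m, 1 ≤ m → m ∈ I₁ ∨ m ∈ I₂

/-- the value of an option -/
noncomputable def Opt.val (v m Λ : ℝ) : Opt → ℝ
  | .zero => 2 * v
  | .one k μ _ c w => 2 * c + max ((m - Λ) / μ) (2 * w / k - Λ)
  | .two k₁ _ c₁ w₁ k₂ _ c₂ w₂ =>
      c₁ + c₂ + 1 / 2 * max 0 (2 * w₁ / k₁ - Λ) + 1 / 2 * max 0 (2 * w₂ / k₂ - Λ)

/-- the sizes of the parts of an ideal -/
def Opt.Holds (a : Idl K) : Opt → Prop
  | .zero => True
  | .one _ _ I c w => rl (ex a I) ≤ c ∧ len (ex a Iᶜ) ≤ w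
  | .two _ I₁ c₁ w₁ _ I₂ c₂ w₂ => (rl (ex a I₁) ≤ c₁ ∧ len (ex a I₁ᶜ) ≤ w₁) ∧
      (rl (ex a I₂) ≤ c₂ ∧ len (ex a I₂ᶜ) ≤ w₂)

theorem mu_rl_cm {a b : Idl K} {I : Set ℕ} {μ : ℕ} (hμ : ∀ m, 1 ≤ m → m ∉ I → μ ≤ m) :
    (μ : ℝ) * rl (cm a b Iᶜ) ≤ len (a ⊓ b) := by
  classical
  have hsub : (cm a b Iᶜ).support ⊆ (a ⊓ b).support := by
    intro v hv
    rw [mem_cm_support] at hv
    rw [Finsupp.mem_support_iff, Finsupp.inf_apply]
    show min (a v) (b v) ≠ 0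
    have h1 := hv.1.1
    have h2 := hv.2.1
    omega
  unfold rl len
  rw [Finset.mul_sum]
  calc ∑ v ∈ (cm a b Iᶜ).support, (μ : ℝ) * Real.log (Nv v)
      ≤ ∑ v ∈ (cm a b Iᶜ).support, (((a ⊓ b) v : ℕ) : ℝ) * Real.log (Nv v) := by
        refine Finset.sum_le_sum fun v hv => ?_
        rw [mem_cm_support] at hv
        refine mul_le_mul_of_nonneg_right ?_ (log_Nv_pos v).le
        have h1 := hμ (a v) (Nat.one_le_iff_ne_zero.mpr hv.1.1) hv.1.2
        have h2 := hμ (b v) (Nat.one_le_iff_ne_zero.mpr hv.2.1) hv.2.2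
        rw [Finsupp.inf_apply]
        have h3 : μ ≤ min (a v) (b v) := le_min h1 h2
        exact_mod_cast h3
    _ ≤ _ := Finset.sum_le_sum_of_subset_of_nonneg hsub fun v _ _ =>
        mul_nonneg (Nat.cast_nonneg _) (log_Nv_pos v).le

theorem rl_cm_le (a b : Idl K) (J : Set ℕ) : rl (cm a b J) ≤ len a := by
  refine (rl_le_len _).trans (len_mono ?_)
  exact inf_le_left.trans (ex_le _ _)

/-- uniform in `k ≤ n` -/
theorem off_cells {S : Finset (Pr K)} {ϖ : Pr K → K} {C : ℝ} (hU : Unif S ϖ C)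
    (hP : StmtP1 S ϖ) (hC : StmtCNT K) (hF : StmtFAC K) (n : ℕ) (hS : SGood S n)
    (ε A : ℝ) (hε : 0 < ε) (hA : 0 ≤ A) : ∃ D : ℝ, 0 < D ∧ ∀ k : ℕ, 1 ≤ k → k ≤ n →
    ∀ (X U γ₁ γ₂ w : ℝ) (I : Set ℕ) (f : Idl K) (V : Finset (Pl K)) (σ : Pl K → ℝ)
      (Q : Finset (Idl K × Idl K)),
    0 ≤ X → w ≤ X → (∀ m, 1 ≤ m → m ∉ I → k ∣ m) → OffS S f → len f ≤ X → V ⊆ Spl S →
    (∀ v ∈ V, 0 ≤ σ v) → (∀ t ∈ Q, Pg S ϖ f V σ A X t) →
    (∀ t ∈ Q, len (ex t.1 Iᶜ) ≤ w ∧ len (ex t.2 Iᶜ) ≤ w) →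
    (∀ t ∈ Q, rl (ex t.1 I + ex t.2 I) ≤ U) →
    (∀ t ∈ Q, γ₁ ≤ rl (cm t.1 t.2 Iᶜ) ∧ rl (cm t.1 t.2 Iᶜ) ≤ γ₂) →
    (Q.card : ℝ) ≤ D * Real.exp (ε * X) * (Real.exp (U + γ₂) *
      (1 + Real.exp (2 * w / k - 2 * γ₁ - lenM f V σ))) := by
  have h : ∀ k : Fin (n + 1), ∃ D : ℝ, 0 < D ∧ (1 ≤ (k : ℕ) →
    ∀ (X U γ₁ γ₂ w : ℝ) (I : Set ℕ) (f : Idl K) (V : Finset (Pl K)) (σ : Pl K → ℝ)
      (Q : Finset (Idl K × Idl K)),
    0 ≤ X → w ≤ X → (∀ m, 1 ≤ m → m ∉ I → (k : ℕ) ∣ m) → OffS S f → len f ≤ X → V ⊆ Spl S →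
    (∀ v ∈ V, 0 ≤ σ v) → (∀ t ∈ Q, Pg S ϖ f V σ A X t) →
    (∀ t ∈ Q, len (ex t.1 Iᶜ) ≤ w ∧ len (ex t.2 Iᶜ) ≤ w) →
    (∀ t ∈ Q, rl (ex t.1 I + ex t.2 I) ≤ U) →
    (∀ t ∈ Q, γ₁ ≤ rl (cm t.1 t.2 Iᶜ) ∧ rl (cm t.1 t.2 Iᶜ) ≤ γ₂) →
    (Q.card : ℝ) ≤ D * Real.exp (ε * X) * (Real.exp (U + γ₂) *
      (1 + Real.exp (2 * w / (k : ℕ) - 2 * γ₁ - lenM f V σ)))) := by
    intro k
    by_cases hk : 1 ≤ (k : ℕ)
    · obtain ⟨D, hD, h1⟩ := off_cell hU hP hC hF (k : ℕ) hk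
        (fun i h1 h2 => hS i h1 (h2.trans (by omega))) ε A hε hA
      exact ⟨D, hD, fun _ => h1⟩
    · exact ⟨1, one_pos, fun h => absurd h hk⟩
  choose D hD h using h
  refine ⟨∑ k, D k, Finset.sum_pos (fun k _ => hD k) ⟨0, Finset.mem_univ _⟩, ?_⟩
  intro k hk hkn X U γ₁ γ₂ w I f V σ Q a1 a2 a3 a4 a5 a6 a7 a8 a9 a10 a11
  have h1 := h ⟨k, by omega⟩ hk X U γ₁ γ₂ w I f V σ Q a1 a2 a3 a4 a5 a6 a7 a8 a9 a10 a11
  refine h1.trans ?_
  have h2 : D ⟨k, by omega⟩ ≤ ∑ k, D k :=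
    Finset.single_le_sum (f := D) (fun j _ => (hD j).le) (Finset.mem_univ _)
  rw [mul_assoc, mul_assoc]
  exact mul_le_mul_of_nonneg_right h2 (by positivity)

/-- the number of off-diagonal pairs -/
theorem off_bound {S : Finset (Pr K)} {ϖ : Pr K → K} {C : ℝ} (hU : Unif S ϖ C)
    (hP : StmtP1 S ϖ) (hC : StmtCNT K) (hF : StmtFAC K) (n : ℕ) (hS : SGood S n)
    (ε A B : ℝ) (hε : 0 < ε) (hA : 0 ≤ A) (hB : 0 ≤ B) : ∃ D : ℝ, 0 < D ∧
    ∀ (X v m Λ : ℝ) (o : Opt) (f : Idl K) (V : Finset (Pl K)) (σ : Pl K → ℝ)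
      (Q : Finset (Idl K × Idl K)),
    0 ≤ X → o.Valid n → OffS S f → len f ≤ X → V ⊆ Spl S → (∀ v ∈ V, 0 ≤ σ v) →
    Λ ≤ lenM f V σ + B → (∀ t ∈ Q, Pg S ϖ f V σ A X t) →
    (∀ t ∈ Q, t.1 ≠ t.2 ∧ ∀ v ∈ Spl S, mt v * Real.log (av v (gen ϖ t.1 / gen ϖ t.2)) ≤ B) →
    (∀ t ∈ Q, rl t.1 ≤ v ∧ rl t.2 ≤ v ∧ len t.2 ≤ m) →
    (∀ t ∈ Q, o.Holds t.1 ∧ o.Holds t.2) →
    (Q.card : ℝ) ≤ D * Real.exp (ε * X) * Real.exp (o.val v m Λ) := by
  classical
  obtain ⟨D1, hD1, h1⟩ := hC (ε / 2) (by positivity)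
  obtain ⟨D2, hD2, h2⟩ := off_cells hU hP hC hF n hS (ε / 2) A (by positivity) hA
  obtain ⟨D3, hD3, h3⟩ := cells (Fin 4) 0 (ε / 4) le_rfl (by positivity)
  set G0 : ℝ := (Spl S).card * (A + 2 * Real.log (Real.exp B + 1)) with hG0
  have hlog0 : 0 ≤ Real.log (Real.exp B + 1) :=
    Real.log_nonneg (by have := Real.exp_pos B; linarith)
  have hG00 : 0 ≤ G0 := by positivity
  set M0 : ℝ := 2 * Real.exp (G0 + B + 8) with hM0
  have hM00 : 0 < M0 := by positivity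
  refine ⟨D1 ^ 2 + D3 * D2 * M0, by positivity, ?_⟩
  intro X v m Λ o f V σ Q hX hv hf hlf hV hσ hΛ hQ hne hvm hh
  have hsum : ∀ R : ℝ, 0 ≤ R → (Q.card : ℝ) ≤ D3 * D2 * M0 * Real.exp (ε * X) * R →
      (Q.card : ℝ) ≤ (D1 ^ 2 + D3 * D2 * M0) * Real.exp (ε * X) * R := by
    intro R hR h
    refine h.trans ?_
    have : 0 ≤ D1 ^ 2 * Real.exp (ε * X) * R := by positivity
    nlinarith
  cases o with
  | zero =>
    set T : Finset (Idl K) := (Q.image fun t => t.1) ∪ (Q.image fun t => t.2) with hT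
    have hTc : (T.card : ℝ) ≤ D1 * Real.exp (v + ε / 2 * X) := by
      refine h1 X v T hX ?_
      intro a ha
      rw [hT, Finset.mem_union, Finset.mem_image, Finset.mem_image] at ha
      rcases ha with ⟨t, ht, rfl⟩ | ⟨t, ht, rfl⟩
      · exact ⟨(hvm t ht).1, (hQ t ht).len1⟩
      · exact ⟨(hvm t ht).2.1, (hQ t ht).len2⟩
    have h3' : Q ⊆ T ×ˢ T := by
      intro t ht
      rw [Finset.mem_product]
      exact ⟨Finset.mem_union_left _ (Finset.mem_image.mpr ⟨t, ht, rfl⟩),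
        Finset.mem_union_right _ (Finset.mem_image.mpr ⟨t, ht, rfl⟩)⟩
    have h4 : (Q.card : ℝ) ≤ (T.card : ℝ) * T.card := by
      have := Finset.card_le_card h3'
      rw [Finset.card_product] at this
      exact_mod_cast this
    have h5 : (T.card : ℝ) * T.card ≤ (D1 * Real.exp (v + ε / 2 * X)) ^ 2 := by
      rw [sq]
      exact mul_le_mul hTc hTc (Nat.cast_nonneg _) (by positivity)
    refine (h4.trans h5).trans ?_
    have e1 : (D1 * Real.exp (v + ε / 2 * X)) ^ 2 =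
        D1 ^ 2 * Real.exp (ε * X) * Real.exp (Opt.zero.val v m Λ) := by
      unfold Opt.val
      rw [mul_pow, ← Real.exp_nat_mul, mul_assoc, ← Real.exp_add]
      congr 2
      push_cast
      ring
    rw [e1]
    have : 0 ≤ D3 * D2 * M0 * Real.exp (ε * X) * Real.exp (Opt.zero.val v m Λ) := by positivity
    nlinarith
  | one k μ I c w =>
    obtain ⟨⟨hk1, hkn⟩, hI, hμ1, hμ⟩ := hv
    have hk0 : (0 : ℝ) < k := by exact_mod_cast hk1
    have hμ0 : (1 : ℝ) ≤ μ := by exact_mod_cast hμ1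
    refine hsum _ (Real.exp_pos _).le ?_
    set W := Real.exp ((Opt.one k μ I c w).val v m Λ) with hW
    have hcell := h3 (Idl K × Idl K) (fun _ t => rl (cm t.1 t.2 Iᶜ)) X Q hX
      (fun t ht _ => by
        have e1 := rl_nonneg (cm t.1 t.2 Iᶜ)
        have e2 := (rl_cm_le t.1 t.2 Iᶜ).trans (hQ t ht).len1
        constructor <;> linarith)
      (D2 * Real.exp (ε / 2 * X) * (M0 * W)) (by positivity) ?_
    · refine hcell.trans ?_
      have e1 : Real.exp (ε / 4 * X) * Real.exp (ε / 2 * X) ≤ Real.exp (ε * X) := by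
        rw [← Real.exp_add, Real.exp_le_exp]
        nlinarith
      calc D3 * Real.exp (ε / 4 * X) * (D2 * Real.exp (ε / 2 * X) * (M0 * W))
          = D3 * D2 * M0 * (Real.exp (ε / 4 * X) * Real.exp (ε / 2 * X)) * W := by ring
        _ ≤ D3 * D2 * M0 * Real.exp (ε * X) * W := by gcongr
    · intro G hGQ hG
      rcases G.eq_empty_or_nonempty with rfl | ⟨t0, ht0⟩
      · rw [Finset.card_empty, Nat.cast_zero]
        positivity
      have ht0Q := hGQ ht0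
      set γ := rl (cm t0.1 t0.2 Iᶜ) with hγ
      have hγ0 : 0 ≤ γ := rl_nonneg _
      have hg1 := h2 k hk1 hkn X (2 * c) (γ - 1) (γ + 1) (min w X) I f V σ G hX (min_le_right _ _)
        hI hf hlf hV hσ (fun t ht => hQ t (hGQ ht))
        (fun t ht => by
          obtain ⟨⟨_, a1⟩, ⟨_, a2⟩⟩ := hh t (hGQ ht)
          exact ⟨le_min a1 ((len_mono (ex_le _ _)).trans (hQ t (hGQ ht)).len1),
            le_min a2 ((len_mono (ex_le _ _)).trans (hQ t (hGQ ht)).len2)⟩)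
        (fun t ht => by
          obtain ⟨⟨a1, _⟩, ⟨a2, _⟩⟩ := hh t (hGQ ht)
          have e1 := rl_add_inf (ex t.1 I) (ex t.2 I)
          have e2 := rl_nonneg (ex t.1 I ⊓ ex t.2 I)
          linarith)
        (fun t ht => by
          have e1 := abs_le.mp (hG 0 t ht t0 ht0)
          constructor
          · linarith [e1.1]
          · linarith [e1.2])
      refine hg1.trans (mul_le_mul_of_nonneg_left ?_ (by positivity))
      have hgap := gap hU hA hB hf hV (hQ t0 ht0Q) (hne t0 ht0Q).1 (hne t0 ht0Q).2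
      have hmu := mu_rl_cm (a := t0.1) (b := t0.2) hμ
      have hm := (hvm t0 ht0Q).2.2
      have hγle : γ ≤ (m - Λ) / μ + (G0 + B) := by
        have e1 : (μ : ℝ) * γ ≤ m - Λ + (G0 + B) := by linarith
        have e2 : γ ≤ (m - Λ + (G0 + B)) / μ := by
          rw [le_div_iff₀ (by linarith)]
          linarith
        have e3 : (m - Λ + (G0 + B)) / μ = (m - Λ) / μ + (G0 + B) / μ := add_div _ _ _
        have e4 : (G0 + B) / μ ≤ G0 + B := div_le_self (by linarith) hμ0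
        linarith
      have hw' : 2 * min w X / k ≤ 2 * w / k := by
        refine div_le_div_of_nonneg_right ?_ hk0.le
        have := min_le_left w X
        linarith
      have l1 := le_max_left ((m - Λ) / (μ : ℝ)) (2 * w / k - Λ)
      have l2 := le_max_right ((m - Λ) / (μ : ℝ)) (2 * w / k - Λ)
      have b1 : Real.exp (2 * c + (γ + 1)) ≤ Real.exp (G0 + B + 8) * W := by
        rw [hW, ← Real.exp_add, Real.exp_le_exp]
        unfold Opt.val
        linarith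
      have b2 : Real.exp (2 * c + (γ + 1)) *
          Real.exp (2 * min w X / k - 2 * (γ - 1) - lenM f V σ) ≤ Real.exp (G0 + B + 8) * W := by
        rw [hW, ← Real.exp_add, ← Real.exp_add, Real.exp_le_exp]
        unfold Opt.val
        linarith
      have b3 : M0 * W = Real.exp (G0 + B + 8) * W + Real.exp (G0 + B + 8) * W := by
        rw [hM0]; ring
      rw [mul_add, mul_one, b3]
      exact add_le_add b1 b2
  | two k₁ I₁ c₁ w₁ k₂ I₂ c₂ w₂ =>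
    obtain ⟨⟨hk1, hkn⟩, hI, ⟨hk1', hkn'⟩, hI', hcov⟩ := hv
    have hk0 : (0 : ℝ) < k₁ := by exact_mod_cast hk1
    have hk0' : (0 : ℝ) < k₂ := by exact_mod_cast hk1'
    refine hsum _ (Real.exp_pos _).le ?_
    set W := Real.exp ((Opt.two k₁ I₁ c₁ w₁ k₂ I₂ c₂ w₂).val v m Λ) with hW
    have hadd : ∀ t ∈ Q, ∀ J : Set ℕ, 0 ≤ rl (ex t.1 J + ex t.2 J) ∧
        rl (ex t.1 J + ex t.2 J) ≤ 2 * X := by
      intro t ht J
      refine ⟨rl_nonneg _, ?_⟩
      have e1 := rl_add_inf (ex t.1 J) (ex t.2 J)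
      have e2 := rl_nonneg (ex t.1 J ⊓ ex t.2 J)
      have e3 := (rl_le_len (ex t.1 J)).trans ((len_mono (ex_le t.1 J)).trans (hQ t ht).len1)
      have e4 := (rl_le_len (ex t.2 J)).trans ((len_mono (ex_le t.2 J)).trans (hQ t ht).len2)
      linarith
    have hcell := h3 (Idl K × Idl K) (fun j t => ![rl (cm t.1 t.2 I₁ᶜ), rl (cm t.1 t.2 I₂ᶜ),
        rl (ex t.1 I₁ + ex t.2 I₁), rl (ex t.1 I₂ + ex t.2 I₂)] j) (2 * X) Q (by linarith)
      (fun t ht j => by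
        have e1 := rl_nonneg (cm t.1 t.2 I₁ᶜ)
        have e2 := (rl_cm_le t.1 t.2 I₁ᶜ).trans (hQ t ht).len1
        have e1' := rl_nonneg (cm t.1 t.2 I₂ᶜ)
        have e2' := (rl_cm_le t.1 t.2 I₂ᶜ).trans (hQ t ht).len1
        have e3 := hadd t ht I₁
        have e4 := hadd t ht I₂
        fin_cases j
        · show -0 ≤ rl (cm t.1 t.2 I₁ᶜ) ∧ rl (cm t.1 t.2 I₁ᶜ) ≤ 2 * X + 0
          constructor <;> linarith
        · show -0 ≤ rl (cm t.1 t.2 I₂ᶜ) ∧ rl (cm t.1 t.2 I₂ᶜ) ≤ 2 * X + 0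
          constructor <;> linarith
        · show -0 ≤ rl (ex t.1 I₁ + ex t.2 I₁) ∧ rl (ex t.1 I₁ + ex t.2 I₁) ≤ 2 * X + 0
          constructor <;> linarith [e3.1, e3.2]
        · show -0 ≤ rl (ex t.1 I₂ + ex t.2 I₂) ∧ rl (ex t.1 I₂ + ex t.2 I₂) ≤ 2 * X + 0
          constructor <;> linarith [e4.1, e4.2])
      (D2 * Real.exp (ε / 2 * X) * (M0 * W)) (by positivity) ?_
    · refine hcell.trans ?_
      have e1 : Real.exp (ε / 4 * (2 * X)) * Real.exp (ε / 2 * X) = Real.exp (ε * X) := by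
        rw [← Real.exp_add]
        congr 1
        ring
      calc D3 * Real.exp (ε / 4 * (2 * X)) * (D2 * Real.exp (ε / 2 * X) * (M0 * W))
          = D3 * D2 * M0 * (Real.exp (ε / 4 * (2 * X)) * Real.exp (ε / 2 * X)) * W := by ring
        _ ≤ D3 * D2 * M0 * Real.exp (ε * X) * W := by rw [e1]
    · intro G hGQ hG
      rcases G.eq_empty_or_nonempty with rfl | ⟨t0, ht0⟩
      · rw [Finset.card_empty, Nat.cast_zero]
        positivity
      have ht0Q := hGQ ht0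
      set γ := rl (cm t0.1 t0.2 I₁ᶜ) with hγ
      set γ' := rl (cm t0.1 t0.2 I₂ᶜ) with hγ'
      set U := rl (ex t0.1 I₁ + ex t0.2 I₁) with hU'
      set U' := rl (ex t0.1 I₂ + ex t0.2 I₂) with hU''
      have hγ0 : 0 ≤ γ := rl_nonneg _
      have hγ0' : 0 ≤ γ' := rl_nonneg _
      have q0 : ∀ t ∈ G, |rl (cm t.1 t.2 I₁ᶜ) - γ| ≤ 1 := fun t ht => hG 0 t ht t0 ht0
      have q1 : ∀ t ∈ G, |rl (cm t.1 t.2 I₂ᶜ) - γ'| ≤ 1 := fun t ht => hG 1 t ht t0 ht0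
      have q2 : ∀ t ∈ G, |rl (ex t.1 I₁ + ex t.2 I₁) - U| ≤ 1 := fun t ht => hG 2 t ht t0 ht0
      have q3 : ∀ t ∈ G, |rl (ex t.1 I₂ + ex t.2 I₂) - U'| ≤ 1 := fun t ht => hG 3 t ht t0 ht0
      have hg1 := h2 k₁ hk1 hkn X (U + 1) (γ - 1) (γ + 1) (min w₁ X) I₁ f V σ G hX
        (min_le_right _ _) hI hf hlf hV hσ (fun t ht => hQ t (hGQ ht))
        (fun t ht => by
          obtain ⟨⟨⟨_, a1⟩, _⟩, ⟨⟨_, a2⟩, _⟩⟩ := hh t (hGQ ht)
          exact ⟨le_min a1 ((len_mono (ex_le _ _)).trans (hQ t (hGQ ht)).len1),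
            le_min a2 ((len_mono (ex_le _ _)).trans (hQ t (hGQ ht)).len2)⟩)
        (fun t ht => by linarith [(abs_le.mp (q2 t ht)).2])
        (fun t ht => by
          have e1 := abs_le.mp (q0 t ht)
          constructor
          · linarith [e1.1]
          · linarith [e1.2])
      have hg2 := h2 k₂ hk1' hkn' X (U' + 1) (γ' - 1) (γ' + 1) (min w₂ X) I₂ f V σ G hX
        (min_le_right _ _) hI' hf hlf hV hσ (fun t ht => hQ t (hGQ ht))
        (fun t ht => by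
          obtain ⟨⟨_, ⟨_, a1⟩⟩, ⟨_, ⟨_, a2⟩⟩⟩ := hh t (hGQ ht)
          exact ⟨le_min a1 ((len_mono (ex_le _ _)).trans (hQ t (hGQ ht)).len1),
            le_min a2 ((len_mono (ex_le _ _)).trans (hQ t (hGQ ht)).len2)⟩)
        (fun t ht => by linarith [(abs_le.mp (q3 t ht)).2])
        (fun t ht => by
          have e1 := abs_le.mp (q1 t ht)
          constructor
          · linarith [e1.1]
          · linarith [e1.2])
      have hU1 : U + γ' ≤ 2 * c₁ := by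
        obtain ⟨⟨⟨a1, _⟩, _⟩, ⟨⟨a2, _⟩, _⟩⟩ := hh t0 ht0Q
        have e1 := rl_add_inf (ex t0.1 I₁) (ex t0.2 I₁)
        have e2 : γ' ≤ rl (ex t0.1 I₁ ⊓ ex t0.2 I₁) := by
          refine rl_mono fun u hu => ?_
          rw [mem_cm_support] at hu
          have e3 : u ∈ (cm t0.1 t0.2 I₁).support := by
            rw [mem_cm_support]
            exact ⟨⟨hu.1.1, (hcov _ (Nat.one_le_iff_ne_zero.mpr hu.1.1)).resolve_right hu.1.2⟩,
              ⟨hu.2.1, (hcov _ (Nat.one_le_iff_ne_zero.mpr hu.2.1)).resolve_right hu.2.2⟩⟩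
          exact e3
        linarith
      have hU2 : U' + γ ≤ 2 * c₂ := by
        obtain ⟨⟨_, ⟨a1, _⟩⟩, ⟨_, ⟨a2, _⟩⟩⟩ := hh t0 ht0Q
        have e1 := rl_add_inf (ex t0.1 I₂) (ex t0.2 I₂)
        have e2 : γ ≤ rl (ex t0.1 I₂ ⊓ ex t0.2 I₂) := by
          refine rl_mono fun u hu => ?_
          rw [mem_cm_support] at hu
          have e3 : u ∈ (cm t0.1 t0.2 I₂).support := by
            rw [mem_cm_support]
            exact ⟨⟨hu.1.1, (hcov _ (Nat.one_le_iff_ne_zero.mpr hu.1.1)).resolve_left hu.1.2⟩,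
              ⟨hu.2.1, (hcov _ (Nat.one_le_iff_ne_zero.mpr hu.2.1)).resolve_left hu.2.2⟩⟩
          exact e3
        linarith
      have hw' : 2 * min w₁ X / k₁ ≤ 2 * w₁ / k₁ := by
        refine div_le_div_of_nonneg_right ?_ hk0.le
        have := min_le_left w₁ X
        linarith
      have hw'' : 2 * min w₂ X / k₂ ≤ 2 * w₂ / k₂ := by
        refine div_le_div_of_nonneg_right ?_ hk0'.le
        have := min_le_left w₂ X
        linarith
      set m1 := max 0 (2 * w₁ / k₁ - Λ) with hm1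
      set m2 := max 0 (2 * w₂ / k₂ - Λ) with hm2
      have l1 : 0 ≤ m1 := le_max_left _ _
      have l1' : 2 * w₁ / k₁ - Λ ≤ m1 := le_max_right _ _
      have l2 : 0 ≤ m2 := le_max_left _ _
      have l2' : 2 * w₂ / k₂ - Λ ≤ m2 := le_max_right _ _
      have b1 : 1 + Real.exp (2 * min w₁ X / k₁ - 2 * (γ - 1) - lenM f V σ) ≤
          2 * Real.exp (B + 2 + m1) := by
        have e1 : (1 : ℝ) ≤ Real.exp (B + 2 + m1) := Real.one_le_exp (by linarith)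
        have e2 : Real.exp (2 * min w₁ X / k₁ - 2 * (γ - 1) - lenM f V σ) ≤
            Real.exp (B + 2 + m1) := Real.exp_le_exp.mpr (by linarith)
        linarith
      have b2 : 1 + Real.exp (2 * min w₂ X / k₂ - 2 * (γ' - 1) - lenM f V σ) ≤
          2 * Real.exp (B + 2 + m2) := by
        have e1 : (1 : ℝ) ≤ Real.exp (B + 2 + m2) := Real.one_le_exp (by linarith)
        have e2 : Real.exp (2 * min w₂ X / k₂ - 2 * (γ' - 1) - lenM f V σ) ≤
            Real.exp (B + 2 + m2) := Real.exp_le_exp.mpr (by linarith)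
        linarith
      have c1' : (G.card : ℝ) ≤ D2 * Real.exp (ε / 2 * X) * (2 * Real.exp (U + γ + m1 + B + 4)) := by
        refine hg1.trans (mul_le_mul_of_nonneg_left ?_ (by positivity))
        refine (mul_le_mul_of_nonneg_left b1 (Real.exp_pos _).le).trans (le_of_eq ?_)
        rw [mul_left_comm, ← Real.exp_add]
        congr 2
        ring
      have c2' : (G.card : ℝ) ≤ D2 * Real.exp (ε / 2 * X) * (2 * Real.exp (U' + γ' + m2 + B + 4)) := by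
        refine hg2.trans (mul_le_mul_of_nonneg_left ?_ (by positivity))
        refine (mul_le_mul_of_nonneg_left b2 (Real.exp_pos _).le).trans (le_of_eq ?_)
        rw [mul_left_comm, ← Real.exp_add]
        congr 2
        ring
      have c3 : (G.card : ℝ) ^ 2 ≤ (D2 * Real.exp (ε / 2 * X) * (M0 * W)) ^ 2 := by
        rw [sq]
        refine (mul_le_mul c1' c2' (Nat.cast_nonneg _) (by positivity)).trans ?_
        have e1 : Real.exp (U + γ + m1 + B + 4) * Real.exp (U' + γ' + m2 + B + 4) ≤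
            (Real.exp (G0 + B + 8) * W) ^ 2 := by
          rw [hW, ← Real.exp_add, ← Real.exp_add, ← Real.exp_nat_mul, Real.exp_le_exp]
          unfold Opt.val
          push_cast
          linarith
        calc _ = 4 * (D2 * Real.exp (ε / 2 * X)) ^ 2 *
              (Real.exp (U + γ + m1 + B + 4) * Real.exp (U' + γ' + m2 + B + 4)) := by ring
          _ ≤ 4 * (D2 * Real.exp (ε / 2 * X)) ^ 2 * (Real.exp (G0 + B + 8) * W) ^ 2 :=
              mul_le_mul_of_nonneg_left e1 (by positivity)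
          _ = _ := by rw [hM0]; ring
      exact (pow_le_pow_iff_left₀ (Nat.cast_nonneg _) (by positivity) two_ne_zero).mp c3

end Pool.Agent.KS6_20.AE
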