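import Mathlib
import Pool.Agent.KS6_20.AE.Off3

/-!
# The sharpened energy bound for a cell of points
-/

set_option autoImplicit false
set_option linter.unusedSectionVars false
set_option linter.unusedVariables false

namespace Pool.Agent.KS6_20.AE

open NumberField IsDedekindDomain Finset Pool.Agent.H691R3 Pool.Agent.W223.AK
open Pool.Agent.W358.AK (fib_bound VV' lenM_ge yy_Cl yy_swap log_two_le)

variable {K : Type} [Field K] [NumberField K]

theorem log_yy {x : K} (hx : Pt x) (p q : Fin 3) (u : Pl K) :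
    mt u * Real.log (av u (yy p q x)) = lm u q x - lm u p x := by
  have hLp := (av u).pos (L_ne hx p)
  have hLq := (av u).pos (L_ne hx q)
  have e1 : av u (yy p q x) = av u (L p x) / av u (L q x) := by
    unfold yy
    rw [map_mul, map_neg_eq_map, map_mul, abv_sgn, abv_sgn, map_div₀]
    ring
  rw [e1, Real.log_div hLp.ne' hLq.ne', lm_eq hx, lm_eq hx]
  ring

/-- the off-diagonal pairs in a class -/
theorem sa_off {S : Finset (Pr K)} {ϖ : Pr K → K} {C : ℝ} (hU : Unif S ϖ C)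
    (hP1 : StmtP1 S ϖ) (hC : StmtCNT K) (hF : StmtFAC K) (n : ℕ) (hn : SGood S n) (ε : ℝ)
    (hε : 0 < ε) : ∃ D : ℝ, 0 < D ∧
    ∀ (X : ℝ) (E : Finset K) (P : K → Fin 3 → Idl K) (p q r : Fin 3) (F : Set ℕ)
      (Λ : ℝ) (v m : Fin 3 → ℝ) (o : Opt) (σ : Fin 3 → Pl K → ℝ) (s : K) (f : Idl K)
      (Q : Finset (Idl K × Idl K)),
    0 ≤ X → (∀ x ∈ E, Pt x ∧ IsP S x (P x) ∧ ht x ≤ X) → p ≠ q → q ≠ r → p ≠ r → o.Valid n →
    (∀ x ∈ E, ∀ j, rl (P x j) ≤ v j ∧ len (P x j) ≤ m j) → (∀ x ∈ E, o.Holds (P x p)) →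
    (∀ x ∈ E, ∀ j, ∀ u ∈ Spl S, |lm u j x - σ j u| ≤ 1) →
    (∀ x ∈ E, Λ ≤ len (ex (P x r) F) + ∑ u ∈ Spl S, σ r u) →
    (∀ x ∈ E, ex (P x r) F = f) →
    (∀ x ∈ E, yy p q x * (gen ϖ (P x q) / gen ϖ (P x p)) = s) →
    (∀ t ∈ Q, ∃ x ∈ E, ∃ x' ∈ E, t.1 = P x p ∧ t.2 = P x' p ∧ P x q = P x' q ∧
      P x p ≠ P x' p) →
    (Q.card : ℝ) ≤ D * Real.exp (ε * X) * Real.exp (o.val (v p) (m p) Λ) := by
  classical
  set N : ℝ := ((Spl S).card : ℝ) with hN
  have hN0 : 0 ≤ N := Nat.cast_nonneg _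
  obtain ⟨D3, hD3, h3⟩ := off_bound hU hP1 hC hF n hn ε 6 (5 * N + 4) hε (by norm_num)
    (by positivity)
  refine ⟨D3 * Real.exp (ε * cS S), by positivity, ?_⟩
  intro X E P p q r F Λ v m o σ s f Q hX hE hpq hqr hpr ho hvm hoh hσ hΛ hf hs hQ
  rcases Q.eq_empty_or_nonempty with hQ0 | ⟨t0, ht0⟩
  · rw [hQ0]
    simp only [Finset.card_empty, Nat.cast_zero]
    positivity
  obtain ⟨x0, hx0, _⟩ := hQ t0 ht0
  have hcs := cS_nonneg S
  have hfo : OffS S f := by
    rw [← hf x0 hx0]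
    exact ((hE x0 hx0).2.1.off r).ex F
  have hlen : ∀ x ∈ E, ∀ l, len (P x l) ≤ X + cS S := by
    intro x hx l
    have h1 := len_le (hE x hx).1 (hE x hx).2.1 l
    have h2 := (hE x hx).2.2
    linarith
  have hlf : len f ≤ X + cS S := by
    rw [← hf x0 hx0]
    exact (len_mono (ex_le _ _)).trans (hlen x0 hx0 r)
  have hlow : Λ ≤ lenM f (VV' S (σ r)) (σ r) + (5 * N + 4) := by
    have h1 := lenM_ge S f (σ r)
    have h2 := hΛ x0 hx0
    rw [hf x0 hx0] at h2
    linarith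
  have hcop : ∀ x ∈ E, Cop (P x p) f := by
    intro x hx
    rw [← hf x hx]
    exact (((hE x hx).2.1.cop hpr).symm.mono_left (ex_le _ _)).symm
  have hV : ∀ u ∈ VV' S (σ r), u ∈ Spl S ∧ 5 ≤ σ r u := by
    intro u hu
    unfold VV' at hu
    rwa [Finset.mem_filter] at hu
  have hquot : ∀ x ∈ E, ∀ x' ∈ E, P x q = P x' q →
      gen ϖ (P x p) / gen ϖ (P x' p) = yy p q x / yy p q x' := by
    intro x hx x' hx' e3
    have g1 := gen_ne hU (P x p)
    have g2 := gen_ne hU (P x' p)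
    have g3 := gen_ne hU (P x q)
    have g4 := yy_ne (hE x hx).1 p q
    have g5 := yy_ne (hE x' hx').1 p q
    have s1 := hs x hx
    have s2 := hs x' hx'
    rw [← e3, ← s1] at s2
    field_simp at s2
    rw [div_eq_div_iff g2 g5]
    linear_combination s2
  have h4 := h3 (X + cS S) (v p) (m p) Λ o f (VV' S (σ r)) (σ r) Q (by linarith) ho hfo hlf
    (fun u hu => (hV u hu).1) (fun u hu => by linarith [(hV u hu).2]) hlow ?_ ?_ ?_ ?_
  · refine h4.trans (le_of_eq ?_)
    have e1 : Real.exp (ε * (X + cS S)) = Real.exp (ε * cS S) * Real.exp (ε * X) := by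
      rw [← Real.exp_add]
      congr 1
      ring
    rw [e1]
    ring
  · intro t ht
    obtain ⟨x, hx, x', hx', e1, e2, e3, _⟩ := hQ t ht
    refine ⟨?_, ?_, ?_, ?_, ?_, ?_, ?_⟩
    · rw [e1]; exact (hE x hx).2.1.off p
    · rw [e2]; exact (hE x' hx').2.1.off p
    · rw [e1]; exact hcop x hx
    · rw [e2]; exact hcop x' hx'
    · rw [e1]; exact hlen x hx p
    · rw [e2]; exact hlen x' hx' p
    · rw [e1, e2, hquot x hx x' hx' e3]
      have c1 := yy_Cl (hE x hx).1 (hE x hx).2.1 hpq hqr hpr F (hσ x hx r)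
      have c2 := yy_Cl (hE x' hx').1 (hE x' hx').2.1 hpq hqr hpr F (hσ x' hx' r)
      rw [hf x hx] at c1
      rw [hf x' hx'] at c2
      have c3 := Cl_div c1 c2 (fun u hu => by
        have h2 := mt_le_two u
        have h5 := log_two_le
        have h7 : 0 ≤ Real.log 2 := Real.log_nonneg (by norm_num)
        have h9 : mt u * Real.log 2 ≤ 2 * (7 / 10) := mul_le_mul h2 h5 h7 (by norm_num)
        linarith [(hV u hu).2])
      have e5 : (3 : ℝ) + 3 = 6 := by norm_num
      rwa [e5] at c3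
  · intro t ht
    obtain ⟨x, hx, x', hx', e1, e2, e3, e4⟩ := hQ t ht
    refine ⟨by rw [e1, e2]; exact e4, ?_⟩
    intro u hu
    rw [e1, e2, hquot x hx x' hx' e3, map_div₀, Real.log_div
      ((av u).pos (yy_ne (hE x hx).1 p q)).ne' ((av u).pos (yy_ne (hE x' hx').1 p q)).ne', mul_sub,
      log_yy (hE x hx).1, log_yy (hE x' hx').1]
    have a1 := abs_le.mp (hσ x hx p u hu)
    have a2 := abs_le.mp (hσ x hx q u hu)
    have a3 := abs_le.mp (hσ x' hx' p u hu)
    have a4 := abs_le.mp (hσ x' hx' q u hu)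
    linarith [a1.1, a1.2, a2.1, a2.2, a3.1, a3.2, a4.1, a4.2]
  · intro t ht
    obtain ⟨x, hx, x', hx', e1, e2, _, _⟩ := hQ t ht
    rw [e1, e2]
    exact ⟨(hvm x hx p).1, (hvm x' hx' p).1, (hvm x' hx' p).2⟩
  · intro t ht
    obtain ⟨x, hx, x', hx', e1, e2, _, _⟩ := hQ t ht
    rw [e1, e2]
    exact ⟨hoh x hx, hoh x' hx'⟩

/-- the conclusion of the sharpened energy bound -/
def StmtEB (S : Finset (Pr K)) (n : ℕ) (ε D : ℝ) : Prop :=
    ∀ (X : ℝ) (E : Finset K) (P : K → Fin 3 → Idl K) (p q r : Fin 3) (F : Set ℕ)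
      (c Λ : ℝ) (v m : Fin 3 → ℝ) (op oq : Opt) (σ : Fin 3 → Pl K → ℝ),
    0 ≤ X → (∀ x ∈ E, Pt x ∧ IsP S x (P x) ∧ ht x ≤ X) → p ≠ q → q ≠ r → p ≠ r →
    op.Valid n → oq.Valid n → (∀ x ∈ E, rl (ex (P x r) F) ≤ c) →
    (∀ x ∈ E, ∀ j, rl (P x j) ≤ v j ∧ len (P x j) ≤ m j) →
    (∀ x ∈ E, op.Holds (P x p)) → (∀ x ∈ E, oq.Holds (P x q)) →
    (∀ x ∈ E, ∀ j, ∀ u ∈ Spl S, |lm u j x - σ j u| ≤ 1) →
    (∀ x ∈ E, Λ ≤ len (ex (P x r) F) + ∑ u ∈ Spl S, σ r u) →
    (E.card : ℝ) ≤ D * Real.exp (ε * X + c +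
      max (v q) (1 / 2 * (op.val (v p) (m p) Λ + max (v q) (oq.val (v q) (m q) Λ))))

theorem eb {S : Finset (Pr K)} {w : Pr K → K} {C : ℝ} (hU : Unif S w C)
    (hP1 : StmtP1 S w) (hC : StmtCNT K) (hF : StmtFAC K) (hS : StmtSU K) (hCS : StmtCS)
    (n : ℕ) (hn : SGood S n) (ε : ℝ) (hε : 0 < ε) : ∃ D : ℝ, 0 < D ∧ StmtEB S n ε D := by
  classical
  have hC1 := hU.one_le
  obtain ⟨D1, hD1, h1⟩ := hC (ε / 4) (by positivity)
  obtain ⟨D2, hD2, h2⟩ := hS S (ε / 4 / (2 * C + 2)) (by positivity)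
  obtain ⟨D3, hD3, h3⟩ := sa_off hU hP1 hC hF n hn (ε / 4) (by positivity)
  set M0 : ℝ := D3 + D1 * Real.exp (ε / 4 * cS S) with hM0
  have hM00 : 0 < M0 := by positivity
  refine ⟨D1 * D2 * Real.exp (ε / 2 * cS S) * (3 * M0), by positivity, ?_⟩
  intro X E P p q r F c Λ v m op oq σ hX hE hpq hqr hpr hop hoq hc hvm hohp hohq hσ hΛ
  have hcs := cS_nonneg S
  set sf : K → K := fun x => yy p q x * (gen w (P x q) / gen w (P x p)) with hsf
  set Φ : K → Idl K × K := fun x => (ex (P x r) F, sf x) with hΦ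
  set T : ℝ := max (v q) (1 / 2 * (op.val (v p) (m p) Λ + max (v q) (oq.val (v q) (m q) Λ)))
    with hT
  set B : ℝ := 3 * (M0 * Real.exp (ε / 4 * X)) * Real.exp T with hB
  have hB0 : 0 ≤ B := by positivity
  have hfib : ∀ b ∈ E.image Φ, ((E.filter (fun x => Φ x = b)).card : ℝ) ≤ B := by
    intro b hb
    set E' := E.filter (fun x => Φ x = b) with hE'
    have hsub : ∀ x ∈ E', x ∈ E := fun x hx => (Finset.mem_filter.mp hx).1
    have hΦb : ∀ x ∈ E', ex (P x r) F = b.1 ∧ sf x = b.2 := by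
      intro x hx
      have := (Finset.mem_filter.mp hx).2
      rw [← this]
      exact ⟨rfl, rfl⟩
    set g : K → Idl K × Idl K := fun x => (P x p, P x q) with hg
    have hinj : Set.InjOn g E' := by
      intro x hx x' hx' hxx
      rw [hg] at hxx
      simp only [Prod.mk.injEq] at hxx
      have s1 := (hΦb x hx).2
      have s2 := (hΦb x' hx').2
      rw [← s2, hsf] at s1
      simp only at s1
      rw [← hxx.1, ← hxx.2] at s1
      have g1 : gen w (P x q) / gen w (P x p) ≠ 0 := div_ne_zero (gen_ne hU _) (gen_ne hU _)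
      have s3 := mul_right_cancel₀ g1 s1
      unfold yy at s3
      have s4 := mul_left_cancel₀ (neg_ne_zero.mpr (mul_ne_zero (sgn_ne p) (sgn_ne q))) s3
      exact L_quot_inj (hE x (hsub x hx)).1 (hE x' (hsub x' hx')).1 hpq s4
    set SA : Finset (Idl K × Idl K) :=
      ((E' ×ˢ E').filter (fun t => P t.1 q = P t.2 q ∧ P t.1 p ≠ P t.2 p)).image
        (fun t => (P t.1 p, P t.2 p)) with hSA
    set SB : Finset (Idl K × Idl K) :=
      ((E' ×ˢ E').filter (fun t => P t.1 p = P t.2 p ∧ P t.1 q ≠ P t.2 q)).image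
        (fun t => (P t.1 q, P t.2 q)) with hSB
    have hA := h3 X E' P p q r F Λ v m op σ b.2 b.1 SA hX (fun x hx => hE x (hsub x hx))
      hpq hqr hpr hop (fun x hx => hvm x (hsub x hx)) (fun x hx => hohp x (hsub x hx))
      (fun x hx => hσ x (hsub x hx))
      (fun x hx => hΛ x (hsub x hx)) (fun x hx => (hΦb x hx).1) (fun x hx => (hΦb x hx).2) (by
        intro t ht
        rw [hSA, Finset.mem_image] at ht
        obtain ⟨y, hy, rfl⟩ := ht
        rw [Finset.mem_filter, Finset.mem_product] at hy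
        exact ⟨y.1, hy.1.1, y.2, hy.1.2, rfl, rfl, hy.2.1, hy.2.2⟩)
    have hBb := h3 X E' P q p r F Λ v m oq σ (b.2)⁻¹ b.1 SB hX
      (fun x hx => hE x (hsub x hx))
      hpq.symm hpr hqr hoq (fun x hx => hvm x (hsub x hx)) (fun x hx => hohq x (hsub x hx))
      (fun x hx => hσ x (hsub x hx))
      (fun x hx => hΛ x (hsub x hx)) (fun x hx => (hΦb x hx).1) (fun x hx => by
        have s1 := (hΦb x hx).2
        rw [← s1, hsf]
        simp only
        rw [yy_swap (hE x (hsub x hx)).1, mul_inv, inv_div]) (by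
        intro t ht
        rw [hSB, Finset.mem_image] at ht
        obtain ⟨y, hy, rfl⟩ := ht
        rw [Finset.mem_filter, Finset.mem_product] at hy
        exact ⟨y.1, hy.1.1, y.2, hy.1.2, rfl, rfl, hy.2.1, hy.2.2⟩)
    have hBq : ((E'.image (fun x => P x q)).card : ℝ) ≤
        D1 * Real.exp (v q + ε / 4 * (X + cS S)) := by
      refine h1 (X + cS S) (v q) _ (by linarith) ?_
      intro a ha
      rw [Finset.mem_image] at ha
      obtain ⟨x, hx, rfl⟩ := ha
      have h5 := len_le (hE x (hsub x hx)).1 (hE x (hsub x hx)).2.1 q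
      have h6 := (hE x (hsub x hx)).2.2
      exact ⟨(hvm x (hsub x hx) q).1, by linarith⟩
    have hfin := cs_off hCS (E'.image g) SA SB (E'.image (fun x => P x q)) ?_ ?_ ?_
      (M0 * Real.exp (ε / 4 * X)) (v q) (op.val (v p) (m p) Λ) (oq.val (v q) (m q) Λ)
      (by positivity) ?_ ?_ ?_
    · rw [Finset.card_image_of_injOn hinj] at hfin
      exact hfin
    · intro t ht t' ht' htt hne
      rw [Finset.mem_image] at ht ht'
      obtain ⟨x, hx, rfl⟩ := ht
      obtain ⟨x', hx', rfl⟩ := ht'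
      rw [hSA, Finset.mem_image]
      exact ⟨(x, x'), Finset.mem_filter.mpr ⟨Finset.mem_product.mpr ⟨hx, hx'⟩, htt, hne⟩, rfl⟩
    · intro t ht t' ht' htt hne
      rw [Finset.mem_image] at ht ht'
      obtain ⟨x, hx, rfl⟩ := ht
      obtain ⟨x', hx', rfl⟩ := ht'
      rw [hSB, Finset.mem_image]
      exact ⟨(x, x'), Finset.mem_filter.mpr ⟨Finset.mem_product.mpr ⟨hx, hx'⟩, htt, hne⟩, rfl⟩
    · intro t ht
      rw [Finset.mem_image] at ht
      obtain ⟨x, hx, rfl⟩ := ht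
      exact Finset.mem_image.mpr ⟨x, hx, rfl⟩
    · refine hBq.trans ?_
      have e1 : Real.exp (v q + ε / 4 * (X + cS S)) =
          Real.exp (ε / 4 * cS S) * (Real.exp (ε / 4 * X) * Real.exp (v q)) := by
        rw [← Real.exp_add, ← Real.exp_add]
        congr 1
        ring
      rw [e1]
      have e2 : 0 ≤ D3 * (Real.exp (ε / 4 * X) * Real.exp (v q)) := by positivity
      rw [hM0]
      nlinarith
    · refine hA.trans ?_
      have e2 : 0 ≤ D1 * Real.exp (ε / 4 * cS S) *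
        (Real.exp (ε / 4 * X) * Real.exp (op.val (v p) (m p) Λ)) := by positivity
      rw [hM0]
      nlinarith
    · refine hBb.trans ?_
      have e2 : 0 ≤ D1 * Real.exp (ε / 4 * cS S) *
        (Real.exp (ε / 4 * X) * Real.exp (oq.val (v q) (m q) Λ)) := by positivity
      rw [hM0]
      nlinarith
  have himg : ((E.image Φ).card : ℝ) ≤ (D1 * Real.exp (c + ε / 4 * (X + cS S))) *
      (D2 * Real.exp (ε / 4 * (X + cS S))) := by
    have hsub : E.image Φ ⊆ (E.image fun x => ex (P x r) F) ×ˢ (E.image sf) := by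
      intro b hb
      rw [Finset.mem_image] at hb
      obtain ⟨x, hx, rfl⟩ := hb
      rw [Finset.mem_product]
      exact ⟨Finset.mem_image.mpr ⟨x, hx, rfl⟩, Finset.mem_image.mpr ⟨x, hx, rfl⟩⟩
    have h4 : ((E.image Φ).card : ℝ) ≤ ((E.image fun x => ex (P x r) F).card : ℝ) *
        ((E.image sf).card : ℝ) := by
      have := Finset.card_le_card hsub
      rw [Finset.card_product] at this
      exact_mod_cast this
    refine h4.trans (mul_le_mul ?_ ?_ (Nat.cast_nonneg _) (by positivity))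
    · refine h1 (X + cS S) c _ (by linarith) ?_
      intro a ha
      rw [Finset.mem_image] at ha
      obtain ⟨x, hx, rfl⟩ := ha
      have h5 := len_le (hE x hx).1 (hE x hx).2.1 r
      have h6 := (hE x hx).2.2
      exact ⟨hc x hx, (len_mono (ex_le _ _)).trans (by linarith)⟩
    · have h7 := h2 ((2 * C + 2) * (X + cS S)) (E.image sf)
        (mul_nonneg (by linarith) (by linarith)) ?_
      · have e1 : ε / 4 / (2 * C + 2) * ((2 * C + 2) * (X + cS S)) = ε / 4 * (X + cS S) := by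
          have : (2 * C + 2) ≠ 0 := by linarith
          field_simp
        rwa [e1] at h7
      · intro y hy
        rw [Finset.mem_image] at hy
        obtain ⟨x, hx, rfl⟩ := hy
        refine ⟨mul_ne_zero (yy_ne (hE x hx).1 p q) (div_ne_zero (gen_ne hU _) (gen_ne hU _)),
          fun v hv => unit_fv hU (hE x hx).2.1 p q hv, fun v hv => ?_⟩
        refine (unit_spec hU (hE x hx).1 (hE x hx).2.1 p q hv).trans ?_
        refine mul_le_mul_of_nonneg_left ?_ (by linarith)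
        have h6 := (hE x hx).2.2
        linarith
  refine (fib_bound E Φ B hfib).trans ((mul_le_mul_of_nonneg_right himg hB0).trans ?_)
  rw [hB]
  have e1 : D1 * Real.exp (c + ε / 4 * (X + cS S)) * (D2 * Real.exp (ε / 4 * (X + cS S))) *
      (3 * (M0 * Real.exp (ε / 4 * X)) * Real.exp T) =
      D1 * D2 * Real.exp (ε / 2 * cS S) * (3 * M0) * Real.exp (3 * ε / 4 * X + c + T) := by
    have e2 : Real.exp (c + ε / 4 * (X + cS S)) * Real.exp (ε / 4 * (X + cS S)) *
        Real.exp (ε / 4 * X) * Real.exp T =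
        Real.exp (ε / 2 * cS S) * Real.exp (3 * ε / 4 * X + c + T) := by
      rw [← Real.exp_add, ← Real.exp_add, ← Real.exp_add, ← Real.exp_add]
      congr 1
      ring
    linear_combination (D1 * D2 * 3 * M0) * e2
  rw [e1]
  refine mul_le_mul_of_nonneg_left ?_ (by positivity)
  rw [Real.exp_le_exp]
  have : 0 ≤ ε * X := mul_nonneg hε.le hX
  linarith

end Pool.Agent.KS6_20.AE
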