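import Mathlib
import Pool.Agent.KS6_20.AE.EB
import Pool.Graph.R_seed8.R365.AK.Cell
import Pool.Graph.R_seed8.R365.AK.FIN

/-!
# The certificate with the sharpened energy bound, and the corresponding case for a cell
-/

set_option autoImplicit false
set_option linter.unusedSectionVars false
set_option linter.unusedVariables false

namespace Pool.Agent.KS6_20.AE

open NumberField IsDedekindDomain Finset Pool.Agent.H691R3 Pool.Agent.W223.AK
open Pool.Agent.W108.AK (rl_union len_union ex_all len_single le_len_of len_ex_le rl_ex_le rl_cn_sum)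
open Pool.Agent.R365.AK

/-- the options in terms of classes of exponents -/
inductive Op (N : ℕ)
  | zero
  | one (k μ : ℕ) (I : Finset (Fin (N + 1)))
  | two (k₁ : ℕ) (I₁ : Finset (Fin (N + 1))) (k₂ : ℕ) (I₂ : Finset (Fin (N + 1)))

/-- the classes in `I` are exact and divisible by `k` (or `k = 1`) -/
def Gk {N : ℕ} (k : ℕ) (I : Finset (Fin (N + 1))) : Prop :=
  ∀ i ∈ I, k = 1 ∨ ((i : ℕ) < N ∧ k ∣ (i : ℕ) + 1)

def Op.Valid {N : ℕ} : Op N → Prop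
  | .zero => True
  | .one k μ I => (1 ≤ k ∧ k ≤ N) ∧ Gk k I ∧ 1 ≤ μ ∧ ∀ i ∈ I, μ ≤ (i : ℕ) + 1
  | .two k₁ I₁ k₂ I₂ => (1 ≤ k₁ ∧ k₁ ≤ N) ∧ Gk k₁ I₁ ∧ (1 ≤ k₂ ∧ k₂ ≤ N) ∧ Gk k₂ I₂ ∧
      Disjoint I₁ I₂

/-- the value of an option for the member `l` and the modulus of size `g` -/
noncomputable def Op.val {N : ℕ} (v : Fin 3 → Fin (N + 1) → ℝ) (w : Fin 3 → ℝ) (l : Fin 3) (g : ℝ) :
    Op N → ℝ
  | .zero => 2 * V v l univ
  | .one k μ I => 2 * V v l Iᶜ + max ((W v w l univ - g) / μ) (2 * W v w l I / k - g)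
  | .two k₁ I₁ k₂ I₂ => V v l I₁ᶜ + V v l I₂ᶜ + 1 / 2 * max 0 (2 * W v w l I₁ / k₁ - g) +
      1 / 2 * max 0 (2 * W v w l I₂ / k₂ - g)

/-- the value of the sharpened energy bound -/
noncomputable def EV {N : ℕ} (v : Fin 3 → Fin (N + 1) → ℝ) (w s : Fin 3 → ℝ) (p q r : Fin 3)
    (F : Finset (Fin (N + 1))) (op oq : Op N) : ℝ :=
  V v r F + max (V v q univ) (1 / 2 * (op.val v w p (W v w r F + s r) +
    max (V v q univ) (oq.val v w q (W v w r F + s r))))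

/-- one of the four bounds is good, for all cells of points with `rad ≤ lam * h` -/
def Cert4 (N : ℕ) (lam e : ℝ) : Prop :=
  ∃ C : ℝ, 0 ≤ C ∧ ∀ (X η : ℝ) (v : Fin 3 → Fin (N + 1) → ℝ) (w s : Fin 3 → ℝ),
    0 ≤ X → 0 ≤ η → (∀ l i, 0 ≤ v l i) → (∀ l, ((N : ℝ) + 1) * v l (Fin.last N) ≤ w l) →
    (∀ l, -η ≤ s l) → (∀ l, |W v w l univ + s l - X| ≤ η) →
    (V v 0 univ + V v 1 univ + V v 2 univ ≤ lam * X + η) →
    (∃ (p q r : Fin 3) (k : ℕ) (I : Fin 3 → Finset (Fin (N + 1))), p ≠ q ∧ q ≠ r ∧ p ≠ r ∧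
      1 ≤ k ∧ k ≤ N ∧ (∀ i, i ∉ I p → k = 1 ∨ ((i : ℕ) < N ∧ k ∣ (i : ℕ) + 1)) ∧
      (∀ i, i ∉ I q → k = 1 ∨ ((i : ℕ) < N ∧ k ∣ (i : ℕ) + 1)) ∧
      V v p (I p) + V v q (I q) + V v r (I r) +
        max 0 (2 * X / k - ((W v w p (I p) + s p) + (W v w q (I q) + s q)) / k -
          (W v w r (I r) + s r)) ≤ e * X + C * η) ∨
    (∃ (p q r : Fin 3) (F : Finset (Fin (N + 1))), p ≠ q ∧ q ≠ r ∧ p ≠ r ∧
      V v r F + 1 / 2 * (V v p univ + max 0 (3 / 2 * V v p univ - (W v w r F + s r))) +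
        1 / 2 * (V v q univ + max 0 (3 / 2 * V v q univ - (W v w r F + s r))) ≤
        e * X + C * η) ∨
    (∃ (p q r : Fin 3) (i : Fin (N + 1)), p ≠ q ∧ q ≠ r ∧ p ≠ r ∧ 1 ≤ (i : ℕ) ∧ (i : ℕ) < N ∧
      V v p {i}ᶜ + V v q univ ≤ e * X + C * η ∧
      (V v p {i}ᶜ + V v q univ) / 2 + V v r univ ≤ e * X + C * η) ∨
    (∃ (p q r : Fin 3) (F : Finset (Fin (N + 1))) (op oq : Op N), p ≠ q ∧ q ≠ r ∧ p ≠ r ∧
      op.Valid ∧ oq.Valid ∧ EV v w s p q r F op oq ≤ e * X + C * η)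

variable {K : Type} [Field K] [NumberField K] {N : ℕ}

lemma ex_Un_compl (a : Idl K) (I : Finset (Fin (N + 1))) : ex a (Un Iᶜ)ᶜ = ex a (Un I) := by
  classical
  ext v
  rw [ex_apply, ex_apply]
  by_cases h0 : a v = 0
  · simp [h0]
  · have h1 : 1 ≤ a v := Nat.one_le_iff_ne_zero.mpr h0
    have h2 : a v ∈ (Un Iᶜ)ᶜ ↔ a v ∈ Un I := by
      have hi : min (a v - 1) N < N + 1 := by omega
      have key : ∀ J : Finset (Fin (N + 1)), a v ∈ Un J ↔ (⟨min (a v - 1) N, hi⟩ : Fin (N + 1)) ∈ J := by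
        intro J
        constructor
        · rintro ⟨j, hj, hj1, hj2⟩
          have : (⟨min (a v - 1) N, hi⟩ : Fin (N + 1)) = j := Fin.ext hj2
          rwa [this]
        · intro hj
          exact ⟨_, hj, h1, rfl⟩
      rw [Set.mem_compl_iff, key, key, Finset.mem_compl, not_not]
    simp only [h2]

/-- the option with sizes -/
noncomputable def Op.toOpt (a : Idl K) (b₁ b₂ : ℝ) : Op N → Opt
  | .zero => .zero
  | .one k μ I => .one k μ (Un Iᶜ) (rl (ex a (Un Iᶜ)) + b₁) (len (ex a (Un I)) + b₂)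
  | .two k₁ I₁ k₂ I₂ => .two k₁ (Un I₁ᶜ) (rl (ex a (Un I₁ᶜ)) + b₁) (len (ex a (Un I₁)) + b₂)
      k₂ (Un I₂ᶜ) (rl (ex a (Un I₂ᶜ)) + b₁) (len (ex a (Un I₂)) + b₂)

lemma mul_of_Gk {k : ℕ} {I : Finset (Fin (N + 1))} (h : Gk k I) : Mul k (Un Iᶜ) := by
  intro m h1 h2
  have h3 : (⟨min (m - 1) N, by omega⟩ : Fin (N + 1)) ∈ I := by
    by_contra hcon
    exact h2 ⟨_, Finset.mem_compl.mpr hcon, h1, rfl⟩
  rcases h _ h3 with h4 | ⟨h4, h5⟩
  · rw [h4]; exact one_dvd m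
  · simp only at h4 h5
    have h6 : min (m - 1) N + 1 = m := by omega
    rwa [h6] at h5

lemma toOpt_valid {n : ℕ} (hn : N + 1 ≤ n) {o : Op N} (ho : o.Valid) (a : Idl K) (b₁ b₂ : ℝ) :
    (o.toOpt a b₁ b₂).Valid n := by
  cases o with
  | zero => trivial
  | one k μ I =>
    obtain ⟨⟨h1, h2⟩, h3, h4, h5⟩ := ho
    refine ⟨⟨h1, by omega⟩, mul_of_Gk h3, h4, ?_⟩
    intro m hm hmI
    have h6 : (⟨min (m - 1) N, by omega⟩ : Fin (N + 1)) ∈ I := by
      by_contra hcon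
      exact hmI ⟨_, Finset.mem_compl.mpr hcon, hm, rfl⟩
    have h7 := h5 _ h6
    simp only at h7
    omega
  | two k₁ I₁ k₂ I₂ =>
    obtain ⟨⟨h1, h2⟩, h3, ⟨h4, h5⟩, h6, h7⟩ := ho
    refine ⟨⟨h1, by omega⟩, mul_of_Gk h3, ⟨h4, by omega⟩, mul_of_Gk h6, ?_⟩
    intro m hm
    by_cases h8 : (⟨min (m - 1) N, by omega⟩ : Fin (N + 1)) ∈ I₁
    · right
      exact ⟨_, Finset.mem_compl.mpr (Finset.disjoint_left.mp h7 h8), hm, rfl⟩
    · left
      exact ⟨_, Finset.mem_compl.mpr h8, hm, rfl⟩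

lemma toOpt_holds {o : Op N} {a b : Idl K} {b₁ b₂ : ℝ}
    (h1 : ∀ I : Finset (Fin (N + 1)), rl (ex b (Un I)) ≤ rl (ex a (Un I)) + b₁)
    (h2 : ∀ I : Finset (Fin (N + 1)), len (ex b (Un I)) ≤ len (ex a (Un I)) + b₂) :
    (o.toOpt a b₁ b₂).Holds b := by
  cases o with
  | zero => trivial
  | one k μ I =>
    refine ⟨h1 _, ?_⟩
    rw [ex_Un_compl]
    exact h2 _
  | two k₁ I₁ k₂ I₂ =>
    refine ⟨⟨h1 _, ?_⟩, ⟨h1 _, ?_⟩⟩
    · rw [ex_Un_compl]
      exact h2 _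
    · rw [ex_Un_compl]
      exact h2 _

lemma div_add_le {x b : ℝ} {k : ℕ} (hk : 1 ≤ k) (hb : 0 ≤ b) : (x + b) / (k : ℝ) ≤ x / k + b := by
  have hk0 : (1 : ℝ) ≤ k := by exact_mod_cast hk
  rw [add_div]
  have := div_le_self hb hk0
  linarith

lemma toOpt_val {o : Op N} (ho : o.Valid) (Q : Fin 3 → Idl K) (l : Fin 3) {b₁ b₂ b₃ g : ℝ}
    (hb₁ : 0 ≤ b₁) (hb₂ : 0 ≤ b₂) (hb₃ : 0 ≤ b₃) :
    (o.toOpt (Q l) b₁ b₂).val (rl (Q l) + b₁) (len (Q l) + b₂) (g - b₃) ≤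
      o.val (fun l i => rl (ex (Q l) (cls N i))) (fun l => len (ex (Q l) (cls N (Fin.last N)))) l g +
        (2 * b₁ + 2 * b₂ + b₃) := by
  cases o with
  | zero =>
    unfold Op.toOpt Opt.val Op.val
    rw [V_eq, ex_univ]
    linarith
  | one k μ I =>
    obtain ⟨⟨h1, h2⟩, h3, h4, h5⟩ := ho
    unfold Op.toOpt Opt.val Op.val
    simp only
    rw [V_eq, W_eq, W_eq, ex_univ]
    have e1 : max ((len (Q l) + b₂ - (g - b₃)) / (μ : ℝ))
        (2 * (len (ex (Q l) (Un I)) + b₂) / k - (g - b₃)) ≤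
        max ((len (Q l) - g) / (μ : ℝ)) (2 * len (ex (Q l) (Un I)) / k - g) + (2 * b₂ + b₃) := by
      refine max_le ?_ ?_
      · have e2 := le_max_left ((len (Q l) - g) / (μ : ℝ)) (2 * len (ex (Q l) (Un I)) / k - g)
        have e3 := div_add_le (x := len (Q l) - g) (b := b₂ + b₃) h4 (by linarith)
        have e4 : len (Q l) + b₂ - (g - b₃) = len (Q l) - g + (b₂ + b₃) := by ring
        rw [e4]
        linarith
      · have e2 := le_max_right ((len (Q l) - g) / (μ : ℝ)) (2 * len (ex (Q l) (Un I)) / k - g)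
        have e3 := div_add_le (x := 2 * len (ex (Q l) (Un I))) (b := 2 * b₂) h1 (by linarith)
        have e4 : 2 * (len (ex (Q l) (Un I)) + b₂) = 2 * len (ex (Q l) (Un I)) + 2 * b₂ := by ring
        rw [e4]
        linarith
    linarith
  | two k₁ I₁ k₂ I₂ =>
    obtain ⟨⟨h1, h2⟩, h3, ⟨h4, h5⟩, h6, h7⟩ := ho
    unfold Op.toOpt Opt.val Op.val
    simp only
    rw [V_eq, V_eq, W_eq, W_eq]
    have e1 : ∀ (k : ℕ) (I : Finset (Fin (N + 1))), 1 ≤ k →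
        max 0 (2 * (len (ex (Q l) (Un I)) + b₂) / (k : ℝ) - (g - b₃)) ≤
        max 0 (2 * len (ex (Q l) (Un I)) / (k : ℝ) - g) + (2 * b₂ + b₃) := by
      intro k I hk
      have e2 := le_max_left 0 (2 * len (ex (Q l) (Un I)) / (k : ℝ) - g)
      have e2' := le_max_right 0 (2 * len (ex (Q l) (Un I)) / (k : ℝ) - g)
      refine max_le (by linarith) ?_
      have e3 := div_add_le (x := 2 * len (ex (Q l) (Un I))) (b := 2 * b₂) hk (by linarith)
      have e4 : 2 * (len (ex (Q l) (Un I)) + b₂) = 2 * len (ex (Q l) (Un I)) + 2 * b₂ := by ring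
      rw [e4]
      linarith
    have e2 := e1 k₁ I₁ h1
    have e3 := e1 k₂ I₂ h4
    linarith

section Cases

variable {S : Finset (Pr K)} {n : ℕ} {lam c₀ Y : ℝ} {E : Finset K} {P : K → Fin 3 → Idl K} {x₀ : K}

lemma IsCell.len_le' (hn : N + 1 ≤ n) (h : IsCell N S n lam c₀ Y E P x₀) {x : K} (hx : x ∈ E)
    (l : Fin 3) (I : Finset (Fin (N + 1))) :
    len (ex (P x l) (Un I)) ≤ len (ex (P x₀ l) (Un I)) + bL N := by
  have := (abs_le.mp (close_len_Un hn (h.close x hx) l I)).2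
  linarith

/-- the case of the sharpened energy bound -/
lemma case_E (hn : N + 1 ≤ n) (h : IsCell N S n lam c₀ Y E P x₀) {ε D : ℝ} (hD : 0 ≤ D)
    (hEB : StmtEB S n ε D)
    {p q r : Fin 3} {F : Finset (Fin (N + 1))} (hpq : p ≠ q) (hqr : q ≠ r) (hpr : p ≠ r)
    {op oq : Op N} (hop : op.Valid) (hoq : oq.Valid) {R : ℝ}
    (hR : EV (fun l i => rl (ex (P x₀ l) (cls N i))) (fun l => len (ex (P x₀ l) (cls N (Fin.last N))))
      (fun l => ∑ v ∈ Spl S, lm v l x₀) p q r F op oq ≤ R) :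
    (E.card : ℝ) ≤ D * Real.exp (ε * Y + R + (4 * bU N n + 3 * bL N)) := by
  have hY := h.Y_nonneg
  have hbU := bU_nonneg N n
  have hbL := bL_nonneg N
  set g : ℝ := len (ex (P x₀ r) (Un F)) + ∑ v ∈ Spl S, lm v r x₀ with hg
  have hmain := hEB Y E P p q r (Un F) (rl (ex (P x₀ r) (Un F)) + bU N n) (g - bL N)
    (fun j => rl (P x₀ j) + bU N n) (fun j => len (P x₀ j) + bL N)
    (op.toOpt (P x₀ p) (bU N n) (bL N)) (oq.toOpt (P x₀ q) (bU N n) (bL N))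
    (fun j v => lm v j x₀) hY h.pt hpq hqr hpr (toOpt_valid hn hop _ _ _)
    (toOpt_valid hn hoq _ _ _) (fun x hx => h.rl_le hn hx r F)
    (fun x hx j => by
      have e1 := h.rl_le hn hx j univ
      have e2 := IsCell.len_le' hn h hx j univ
      rw [ex_univ, ex_univ] at e1 e2
      exact ⟨e1, e2⟩)
    (fun x hx => toOpt_holds (fun I => h.rl_le hn hx p I) (fun I => IsCell.len_le' hn h hx p I))
    (fun x hx => toOpt_holds (fun I => h.rl_le hn hx q I) (fun I => IsCell.len_le' hn h hx q I))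
    (fun x hx j u hu => (h.close x hx).hlm j u hu)
    (fun x hx => by
      have h1 := h.le_len hn hx r F
      linarith)
  refine hmain.trans (mul_le_mul_of_nonneg_left (Real.exp_le_exp.mpr ?_) hD)
  have e1 := toOpt_val hop (P x₀) p (b₁ := bU N n) (b₂ := bL N) (b₃ := bL N) (g := g) hbU hbL hbL
  have e2 := toOpt_val hoq (P x₀) q (b₁ := bU N n) (b₂ := bL N) (b₃ := bL N) (g := g) hbU hbL hbL
  unfold EV at hR
  rw [V_eq, V_eq, W_eq, ex_univ] at hR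
  simp only at hR
  rw [← hg] at hR
  set A := (op.toOpt (P x₀ p) (bU N n) (bL N)).val (rl (P x₀ p) + bU N n) (len (P x₀ p) + bL N)
    (g - bL N) with hA
  set B := (oq.toOpt (P x₀ q) (bU N n) (bL N)).val (rl (P x₀ q) + bU N n) (len (P x₀ q) + bL N)
    (g - bL N) with hB
  set A' := op.val (fun l i => rl (ex (P x₀ l) (cls N i)))
    (fun l => len (ex (P x₀ l) (cls N (Fin.last N)))) p g with hA'
  set B' := oq.val (fun l i => rl (ex (P x₀ l) (cls N i)))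
    (fun l => len (ex (P x₀ l) (cls N (Fin.last N)))) q g with hB'
  have e3 : max (rl (P x₀ q) + bU N n) B ≤ max (rl (P x₀ q)) B' + (2 * bU N n + 2 * bL N + bL N) := by
    have a1 := le_max_left (rl (P x₀ q)) B'
    have a2 := le_max_right (rl (P x₀ q)) B'
    refine max_le ?_ ?_ <;> linarith
  have e4 : max (rl (P x₀ q) + bU N n) (1 / 2 * (A + max (rl (P x₀ q) + bU N n) B)) ≤
      max (rl (P x₀ q)) (1 / 2 * (A' + max (rl (P x₀ q)) B')) +
        (2 * bU N n + 3 * bL N) := by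
    have a1 := le_max_left (rl (P x₀ q)) (1 / 2 * (A' + max (rl (P x₀ q)) B'))
    have a2 := le_max_right (rl (P x₀ q)) (1 / 2 * (A' + max (rl (P x₀ q)) B'))
    refine max_le ?_ ?_ <;> linarith
  linarith

end Cases

end Pool.Agent.KS6_20.AE
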