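import Mathlib
import Pool.Agent.KS6_20.AE.Cell
import Pool.Graph.R_seed8.R365.Chk.Run

set_option autoImplicit false
set_option linter.unusedVariables false

/-!
# The run of a certificate with the sharpened energy bound, and its soundness
-/

namespace Pool.Agent.KS6_20.AE

open Finset Pool.Agent.R365.AK Pool.Agent.R365.Chk Pool.Agent.R365.Chk.Fm

/-- the weight of a mask -/
def WE (N p m : ℕ) : Fm :=
  add (Wj N p m (Nat.succ N)) (cnd (bt m N) (un (Nat.add (Nat.mul 3 (Nat.succ N)) p)))

/-- the size of the modulus -/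
def gF (N r F : ℕ) : Fm := sub (WF N r F) (uE N)

/-- the cost of the complement of a mask -/
def VCo (N p m : ℕ) : Fm := sub (VF N p (fm N)) (VF N p m)

section blocks

variable {N : ℕ} {v : Fin 3 → Fin (N + 1) → ℝ} {w s : Fin 3 → ℝ} {X Y η : ℝ}

theorem rep_WE (hN : N ≤ 9) (p m : ℕ) (hp : p < 3) :
    Rep (xx N v w s X Y η) (WE N p m) (W v w (fz p) (st N m)) := by
  rw [W_st]
  have h1 := rep_un (x := xx N v w s X Y η) (3 * (N + 1) + p) (by omega)
  rw [xx_y p hp] at h1
  exact rep_add (rep_Wj hN p m hp (N + 1) le_rfl) (rep_cnd _ h1)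

theorem rep_gF (hN : N ≤ 9) (r F : ℕ) (hr : r < 3) :
    Rep (xx N v w s X Y η) (gF N r F) (W v w (fz r) (st N F) + s (fz r)) := by
  have h1 := rep_WF (v := v) (w := w) (s := s) (X := X) (Y := Y) (η := η) hN r F hr
  have h2 := rep_E (v := v) (w := w) (s := s) (X := X) (Y := Y) (η := η) hN
  exact rep_congr (rep_sub h1 h2) (by ring)

theorem V_co (v : Fin 3 → Fin (N + 1) → ℝ) (l : Fin 3) (I : Finset (Fin (N + 1))) :
    V v l Iᶜ = V v l univ - V v l I := by
  have := Finset.sum_add_sum_compl I (fun i => v l i)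
  unfold V
  linarith

theorem rep_VCo (hN : N ≤ 9) (p m : ℕ) (hp : p < 3) :
    Rep (xx N v w s X Y η) (VCo N p m) (V v (fz p) (st N m)ᶜ) := by
  have h1 := rep_VF (v := v) (w := w) (s := s) (X := X) (Y := Y) (η := η) hN p (fm N) hp
  have h2 := rep_VF (v := v) (w := w) (s := s) (X := X) (Y := Y) (η := η) hN p m hp
  rw [st_fm hN] at h1
  exact rep_congr (rep_sub h1 h2) (V_co v (fz p) (st N m)).symm

end blocks

/-- the classes below `j` in the mask are divisible by `k` -/
def gj (k m : ℕ) : ℕ → Bool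
  | 0 => true
  | i + 1 => gj k m i && (!bt m i || Nat.beq (Nat.mod (Nat.succ i) k) 0)

/-- the classes of the mask are exact and divisible by `k` -/
def goodS (N k m : ℕ) : Bool := Nat.beq k 1 || (!bt m N && gj k m N)

/-- the classes below `j` in the mask are at least `mu` -/
def mj (mu m : ℕ) : ℕ → Bool
  | 0 => true
  | i + 1 => mj mu m i && (!bt m i || Nat.ble mu (Nat.succ i))

/-- the masks are disjoint below `j` -/
def dj (m m' : ℕ) : ℕ → Bool
  | 0 => true
  | i + 1 => dj m m' i && (!bt m i || !bt m' i)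

theorem gj_of {k m : ℕ} : ∀ {j : ℕ}, gj k m j = true → ∀ i, i < j → bt m i = true → k ∣ i + 1
  | 0, _, i, hi, _ => by omega
  | j + 1, h, i, hi, hb => by
    have h' : (gj k m j && (!bt m j || Nat.beq (Nat.mod (Nat.succ j) k) 0)) = true := h
    rw [Bool.and_eq_true, Bool.or_eq_true] at h'
    rcases Nat.lt_succ_iff_lt_or_eq.mp hi with h1 | rfl
    · exact gj_of h'.1 i h1 hb
    · rcases h'.2 with h2 | h2
      · rw [hb] at h2
        exact absurd h2 (by decide)
      · exact Nat.dvd_of_mod_eq_zero (Nat.eq_of_beq_eq_true h2)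

theorem mj_of {mu m : ℕ} : ∀ {j : ℕ}, mj mu m j = true → ∀ i, i < j → bt m i = true → mu ≤ i + 1
  | 0, _, i, hi, _ => by omega
  | j + 1, h, i, hi, hb => by
    have h' : (mj mu m j && (!bt m j || Nat.ble mu (Nat.succ j))) = true := h
    rw [Bool.and_eq_true, Bool.or_eq_true] at h'
    rcases Nat.lt_succ_iff_lt_or_eq.mp hi with h1 | rfl
    · exact mj_of h'.1 i h1 hb
    · rcases h'.2 with h2 | h2
      · rw [hb] at h2
        exact absurd h2 (by decide)
      · exact Nat.le_of_ble_eq_true h2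

theorem dj_of {m m' : ℕ} : ∀ {j : ℕ}, dj m m' j = true → ∀ i, i < j → bt m i = true →
    bt m' i = true → False
  | 0, _, i, hi, _, _ => by omega
  | j + 1, h, i, hi, hb, hb' => by
    have h' : (dj m m' j && (!bt m j || !bt m' j)) = true := h
    rw [Bool.and_eq_true, Bool.or_eq_true] at h'
    rcases Nat.lt_succ_iff_lt_or_eq.mp hi with h1 | rfl
    · exact dj_of h'.1 i h1 hb hb'
    · rw [hb, hb'] at h'
      exact absurd h'.2 (by decide)

theorem mem_st {N m : ℕ} (i : Fin (N + 1)) : i ∈ st N m ↔ bt m i = true := by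
  unfold st
  rw [Finset.mem_filter]
  simp

theorem goodS_of {N k m : ℕ} (h : goodS N k m = true) : Gk k (st N m) := by
  intro i hi
  rw [mem_st] at hi
  unfold goodS at h
  rw [Bool.or_eq_true, Bool.and_eq_true] at h
  rcases h with h | ⟨h1, h2⟩
  · exact Or.inl (Nat.eq_of_beq_eq_true h)
  · right
    have hlt : (i : ℕ) < N := by
      by_contra hcon
      have h3 : (i : ℕ) = N := by have := i.2; omega
      rw [h3] at hi
      rw [hi] at h1
      exact absurd h1 (by decide)
    exact ⟨hlt, gj_of h2 i hlt hi⟩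

/-- the option with given code -/
def opOf (N ty k S k' S' : ℕ) : Op N :=
  if ty = 0 then .zero else if ty = 1 then .one k k' (st N S) else .two k (st N S) k' (st N S')

/-- the numbers `1, ..., 7`, at most `N` -/
def ok7 (N k : ℕ) : Bool := Nat.ble 1 k && Nat.ble k 7 && Nat.ble k N

def okop (N ty k S k' S' : ℕ) : Bool :=
  bif Nat.beq ty 0 then true else
  bif Nat.beq ty 1 then ok7 N k && goodS N k S && Nat.ble 1 k' && Nat.ble k' 7 && mj k' S (Nat.succ N)
  else Nat.beq ty 2 && ok7 N k && goodS N k S && ok7 N k' && goodS N k' S' && dj S S' (Nat.succ N)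

theorem ok7_of {N k : ℕ} (h : ok7 N k = true) : (1 ≤ k ∧ k ≤ N) ∧ k ≤ 7 := by
  unfold ok7 at h
  rw [Bool.and_eq_true, Bool.and_eq_true] at h
  exact ⟨⟨Nat.le_of_ble_eq_true h.1.1, Nat.le_of_ble_eq_true h.2⟩, Nat.le_of_ble_eq_true h.1.2⟩

theorem okop_valid {N ty k S k' S' : ℕ} (h : okop N ty k S k' S' = true) :
    (opOf N ty k S k' S').Valid := by
  unfold okop at h
  unfold opOf
  cases h0 : Nat.beq ty 0
  · have hne : ty ≠ 0 := fun e => by rw [e] at h0; exact absurd h0 (by decide)
    rw [if_neg hne]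
    cases h1 : Nat.beq ty 1
    · have hne1 : ty ≠ 1 := fun e => by rw [e] at h1; exact absurd h1 (by decide)
      rw [if_neg hne1]
      rw [h0, h1] at h
      simp only [cond_false, Bool.and_eq_true] at h
      obtain ⟨⟨⟨⟨⟨g0, g1⟩, g2⟩, g3⟩, g4⟩, g5⟩ := h
      refine ⟨(ok7_of g1).1, goodS_of g2, (ok7_of g3).1, goodS_of g4, ?_⟩
      rw [Finset.disjoint_left]
      intro i hi hi'
      rw [mem_st] at hi hi'
      exact dj_of g5 i i.2 hi hi'
    · have he1 : ty = 1 := Nat.eq_of_beq_eq_true h1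
      rw [if_pos he1]
      rw [h0, h1] at h
      simp only [cond_false, cond_true, Bool.and_eq_true] at h
      obtain ⟨⟨⟨⟨g1, g2⟩, g3⟩, g4⟩, g5⟩ := h
      refine ⟨(ok7_of g1).1, goodS_of g2, Nat.le_of_ble_eq_true g3, ?_⟩
      intro i hi
      rw [mem_st] at hi
      exact mj_of g5 i i.2 hi
  · have he0 : ty = 0 := Nat.eq_of_beq_eq_true h0
    rw [if_pos he0]
    trivial

/-- the forms of an option, scaled by `1260` -/
def hOp (N l r F ty k S k' S' : ℕ) : List Fm :=
  bif Nat.beq ty 0 then [mul 2520 (VF N l (fm N))] else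
  bif Nat.beq ty 1 then
    (let a := mul 2520 (VCo N l S)
    [add a (mul (Nat.div 1260 k') (sub (WE N l (fm N)) (gF N r F))),
      add a (sub (mul (Nat.div 2520 k) (WE N l S)) (mul 1260 (gF N r F)))])
  else
    (let a := add (mul 1260 (VCo N l S)) (mul 1260 (VCo N l S'))
    let b := sub (mul (Nat.div 1260 k) (WE N l S)) (mul 630 (gF N r F))
    let c := sub (mul (Nat.div 1260 k') (WE N l S')) (mul 630 (gF N r F))
    [a, add a b, add a c, add a (add b c)])

/-- the forms of the sharpened energy bound, scaled by `2520` -/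
def pE (N q r F : ℕ) (A B : List Fm) : List Fm :=
  let c := mul 2520 (VF N r F)
  add c (mul 2520 (VF N q (fm N))) ::
    (A.map (fun a => add c (add a (mul 1260 (VF N q (fm N))))) ++
      A.flatMap fun a => B.map fun b => add c (add a b))

section pieces

variable {N : ℕ} {v : Fin 3 → Fin (N + 1) → ℝ} {w s : Fin 3 → ℝ} {X Y η : ℝ}

theorem div_ok7 {k n : ℕ} (h1 : 1 ≤ k) (h2 : k ≤ 7) (hn : 420 ∣ n) :
    ((n / k : ℕ) : ℝ) = (n : ℝ) / k := by
  have h3 : k ∣ 420 := by
    interval_cases k <;> decide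
  rw [Nat.cast_div (h3.trans hn) (by positivity)]

theorem hOp_cov (hN : N ≤ 9) {l r F ty k S k' S' : ℕ} (hl : l < 3) (hr : r < 3)
    (h : okop N ty k S k' S' = true) : ∃ f ∈ hOp N l r F ty k S k' S',
    Rep (xx N v w s X Y η) f
      (1260 * (opOf N ty k S k' S').val v w (fz l) (W v w (fz r) (st N F) + s (fz r))) := by
  have vf := rep_VF (v := v) (w := w) (s := s) (X := X) (Y := Y) (η := η) hN l (fm N) hl
  rw [st_fm hN] at vf
  have vc := fun m => rep_VCo (v := v) (w := w) (s := s) (X := X) (Y := Y) (η := η) hN l m hl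
  have we := fun m => rep_WE (v := v) (w := w) (s := s) (X := X) (Y := Y) (η := η) hN l m hl
  have gg := rep_gF (v := v) (w := w) (s := s) (X := X) (Y := Y) (η := η) hN r F hr
  unfold okop at h
  unfold opOf hOp
  cases h0 : Nat.beq ty 0
  · have hne : ty ≠ 0 := fun e => by rw [e] at h0; exact absurd h0 (by decide)
    rw [if_neg hne]
    cases h1 : Nat.beq ty 1
    · have hne1 : ty ≠ 1 := fun e => by rw [e] at h1; exact absurd h1 (by decide)
      rw [if_neg hne1]
      rw [h0, h1] at h
      simp only [cond_false, Bool.and_eq_true] at h ⊢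
      obtain ⟨⟨⟨⟨⟨g0, g1⟩, g2⟩, g3⟩, g4⟩, g5⟩ := h
      obtain ⟨⟨k1, _⟩, k2⟩ := ok7_of g1
      obtain ⟨⟨k1', _⟩, k2'⟩ := ok7_of g3
      have d1 := div_ok7 k1 k2 (n := 1260) (by decide)
      have d2 := div_ok7 k1' k2' (n := 1260) (by decide)
      have hk0 : (0 : ℝ) < k := by exact_mod_cast k1
      have hk0' : (0 : ℝ) < k' := by exact_mod_cast k1'
      have a := rep_add (rep_mul 1260 (vc S)) (rep_mul 1260 (vc S'))
      have b := rep_sub (rep_mul (1260 / k) (we S)) (rep_mul 630 gg)
      have c := rep_sub (rep_mul (1260 / k') (we S')) (rep_mul 630 gg)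
      simp only [Op.val]
      set g := W v w (fz r) (st N F) + s (fz r) with hg
      rcases le_total (2 * W v w (fz l) (st N S) / k - g) 0 with e1 | e1 <;>
        rcases le_total (2 * W v w (fz l) (st N S') / k' - g) 0 with e2 | e2
      · refine ⟨_, List.mem_cons_self, rep_congr a ?_⟩
        rw [max_eq_left e1, max_eq_left e2]
        push_cast
        ring
      · refine ⟨_, List.mem_cons_of_mem _ (List.mem_cons_of_mem _ List.mem_cons_self),
          rep_congr (rep_add a c) ?_⟩
        rw [max_eq_left e1, max_eq_right e2, d2]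
        push_cast
        field_simp
        ring
      · refine ⟨_, List.mem_cons_of_mem _ List.mem_cons_self, rep_congr (rep_add a b) ?_⟩
        rw [max_eq_right e1, max_eq_left e2, d1]
        push_cast
        field_simp
        ring
      · refine ⟨_, List.mem_cons_of_mem _ (List.mem_cons_of_mem _ (List.mem_cons_of_mem _
          List.mem_cons_self)), rep_congr (rep_add a (rep_add b c)) ?_⟩
        rw [max_eq_right e1, max_eq_right e2, d1, d2]
        push_cast
        field_simp
        ring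
    · have he1 : ty = 1 := Nat.eq_of_beq_eq_true h1
      rw [if_pos he1]
      rw [h0, h1] at h
      simp only [cond_false, cond_true, Bool.and_eq_true] at h ⊢
      obtain ⟨⟨⟨⟨g1, g2⟩, g3⟩, g4⟩, g5⟩ := h
      obtain ⟨⟨k1, _⟩, k2⟩ := ok7_of g1
      have k1' := Nat.le_of_ble_eq_true g3
      have k2' := Nat.le_of_ble_eq_true g4
      have d1 := div_ok7 k1 k2 (n := 2520) (by decide)
      have d2 := div_ok7 k1' k2' (n := 1260) (by decide)
      have hk0 : (0 : ℝ) < k := by exact_mod_cast k1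
      have hk0' : (0 : ℝ) < k' := by exact_mod_cast k1'
      have a := rep_mul 2520 (vc S)
      have wf := we (fm N)
      rw [st_fm hN] at wf
      have b := rep_mul (1260 / k') (rep_sub wf gg)
      have c := rep_sub (rep_mul (2520 / k) (we S)) (rep_mul 1260 gg)
      simp only [Op.val]
      set g := W v w (fz r) (st N F) + s (fz r) with hg
      rcases le_total ((W v w (fz l) univ - g) / (k' : ℝ)) (2 * W v w (fz l) (st N S) / k - g)
        with e1 | e1
      · refine ⟨_, List.mem_cons_of_mem _ List.mem_cons_self, rep_congr (rep_add a c) ?_⟩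
        rw [max_eq_right e1, d1]
        push_cast
        field_simp
        ring
      · refine ⟨_, List.mem_cons_self, rep_congr (rep_add a b) ?_⟩
        rw [max_eq_left e1, d2]
        push_cast
        field_simp
        ring
  · have he0 : ty = 0 := Nat.eq_of_beq_eq_true h0
    rw [if_pos he0]
    simp only [cond_true]
    refine ⟨_, List.mem_cons_self, rep_congr (rep_mul 2520 vf) ?_⟩
    simp only [Op.val]
    push_cast
    ring

theorem cov_E (hN : N ≤ 9) {p q r F : ℕ} (hp : p < 3) (hq : q < 3) (hr : r < 3) {op oq : Op N}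
    {A B : List Fm}
    (hA : ∃ f ∈ A, Rep (xx N v w s X Y η) f
      (1260 * op.val v w (fz p) (W v w (fz r) (st N F) + s (fz r))))
    (hB : ∃ f ∈ B, Rep (xx N v w s X Y η) f
      (1260 * oq.val v w (fz q) (W v w (fz r) (st N F) + s (fz r))))
    {t : ℝ} (ht : t < EV v w s (fz p) (fz q) (fz r) (st N F) op oq) :
    ∃ y, t < y ∧ ∃ f ∈ pE N q r F A B, Rep (xx N v w s X Y η) f (2520 * y) := by
  refine ⟨_, ht, ?_⟩
  have vq := rep_VF (v := v) (w := w) (s := s) (X := X) (Y := Y) (η := η) hN q (fm N) hq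
  rw [st_fm hN] at vq
  have vr := rep_VF (v := v) (w := w) (s := s) (X := X) (Y := Y) (η := η) hN r F hr
  obtain ⟨a, ha, hra⟩ := hA
  obtain ⟨b, hb, hrb⟩ := hB
  have c := rep_mul 2520 vr
  unfold EV pE
  set g := W v w (fz r) (st N F) + s (fz r) with hg
  set x := op.val v w (fz p) g with hx
  set y := oq.val v w (fz q) g with hy
  rcases le_total (V v (fz q) univ) (1 / 2 * (x + max (V v (fz q) univ) y)) with h | h
  · rw [max_eq_right h]
    rcases le_total (V v (fz q) univ) y with h' | h'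
    · rw [max_eq_right h']
      refine ⟨_, List.mem_cons_of_mem _ (List.mem_append_right _ (List.mem_flatMap.mpr
        ⟨a, ha, List.mem_map.mpr ⟨b, hb, rfl⟩⟩)), rep_congr (rep_add c (rep_add hra hrb)) ?_⟩
      push_cast
      ring
    · rw [max_eq_left h']
      refine ⟨_, List.mem_cons_of_mem _ (List.mem_append_left _ (List.mem_map.mpr
        ⟨a, ha, rfl⟩)), rep_congr (rep_add c (rep_add hra (rep_mul 1260 vq))) ?_⟩
      push_cast
      ring
  · rw [max_eq_left h]
    refine ⟨_, List.mem_cons_self, rep_congr (rep_add c (rep_mul 2520 vq)) ?_⟩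
    push_cast
    ring

end pieces

/-! ### the run -/

def validE (N m : ℕ) : Bool :=
  perm (dg m 0) (dg m 1) (dg m 2) &&
    okop N (dg m 4) (dg m 5) (dg m 6) (dg m 7) (dg m 8) &&
    okop N (dg m 9) (dg m 10) (dg m 11) (dg m 12) (dg m 13)

def valid4 (N kd m : ℕ) : Bool := bif Nat.beq kd 4 then validE N m else valid N kd m

def pcs4 (N kd m : ℕ) : List Fm :=
  bif Nat.beq kd 4 then
    pE N (dg m 1) (dg m 2) (dg m 3)
      (hOp N (dg m 0) (dg m 2) (dg m 3) (dg m 4) (dg m 5) (dg m 6) (dg m 7) (dg m 8))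
      (hOp N (dg m 1) (dg m 2) (dg m 3) (dg m 9) (dg m 10) (dg m 11) (dg m 12) (dg m 13))
  else pcs N kd m

/-- the run of a certificate: a list of codes against a stack of goals -/
def run4 (P : Prm) : List ℕ → List (List Fm) → Bool
  | [], gs => gs.isEmpty
  | n :: ns, gs => match gs with
    | [] => false
    | g :: gs => bif Nat.beq (Nat.mod n 8) 0 then leafOk (baseR P) g (Nat.div n 8) && run4 P ns gs
      else valid4 P.N (Nat.mod n 8) (Nat.div n 8) &&
        run4 P ns (expand P g gs (pcs4 P.N (Nat.mod n 8) (Nat.div n 8)))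

/-- all the bounds fail -/
structure Fails4 {N : ℕ} (t X : ℝ) (v : Fin 3 → Fin (N + 1) → ℝ) (w s : Fin 3 → ℝ) : Prop where
  F : Fails t X v w s
  E : ∀ (p q r : Fin 3) (F : Finset (Fin (N + 1))) (op oq : Op N), p ≠ q → q ≠ r → p ≠ r →
    op.Valid → oq.Valid → t < EV v w s p q r F op oq

section sound

variable {N : ℕ} {v : Fin 3 → Fin (N + 1) → ℝ} {w s : Fin 3 → ℝ} {X Y η t : ℝ}

theorem node_sound4 (hN : N ≤ 9) (h01 : V v 0 univ ≤ V v 1 univ) (h12 : V v 1 univ ≤ V v 2 univ)
    (hf : Fails4 t X v w s) (kd m : ℕ) (h : valid4 N kd m = true) :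
    ∃ y, t < y ∧ ∃ f ∈ pcs4 N kd m, Rep (xx N v w s X Y η) f (2520 * y) := by
  unfold valid4 at h
  unfold pcs4
  cases h1 : Nat.beq kd 4
  · rw [h1] at h
    simp only [cond_false] at h ⊢
    exact node_sound hN h01 h12 hf.F kd m h
  · rw [h1] at h
    simp only [cond_true] at h ⊢
    unfold validE at h
    rw [Bool.and_eq_true, Bool.and_eq_true] at h
    obtain ⟨⟨g1, g2⟩, g3⟩ := h
    obtain ⟨hp, hq, hr, n1, n2, n3⟩ := perm_of g1
    exact cov_E hN hp hq hr (hOp_cov hN hp hr g2) (hOp_cov hN hq hr g3)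
      (hf.E _ _ _ (st N (dg m 3)) _ _ n1 n2 n3 (okop_valid g2) (okop_valid g3))

theorem run_sound4 (P : Prm) (hN : P.N ≤ 9) (hd : 0 < P.den) {v : Fin 3 → Fin (P.N + 1) → ℝ}
    {lam : ℝ} (hx : ∀ j, 0 ≤ xx P.N v w s X (lam * X) η j)
    (h01 : V v 0 univ ≤ V v 1 univ) (h12 : V v 1 univ ≤ V v 2 univ)
    (hb : ∀ f ∈ baseR P, ∃ r, Rep (xx P.N v w s X (lam * X) η) f r ∧ 0 ≤ r)
    (hf : Fails4 (P.th lam * X + 10000 * η) X v w s) : ∀ (ns : List ℕ) (gs : List (List Fm)),
    run4 P ns gs = true → ∀ g ∈ gs, Goal (xx P.N v w s X (lam * X) η) g := by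
  intro ns
  induction ns with
  | nil =>
    intro gs h g hg
    have h' : gs.isEmpty = true := h
    rw [List.isEmpty_iff] at h'
    rw [h'] at hg
    exact absurd hg List.not_mem_nil
  | cons n ns ih =>
    intro gs h g hg
    cases gs with
    | nil => exact absurd hg List.not_mem_nil
    | cons g₀ gs =>
      have h' : (bif Nat.beq (Nat.mod n 8) 0 then
          leafOk (baseR P) g₀ (Nat.div n 8) && run4 P ns gs
        else valid4 P.N (Nat.mod n 8) (Nat.div n 8) &&
          run4 P ns (expand P g₀ gs (pcs4 P.N (Nat.mod n 8) (Nat.div n 8)))) = true := h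
      cases hk : Nat.beq (Nat.mod n 8) 0
      · rw [hk, cond_false, Bool.and_eq_true] at h'
        obtain ⟨h1, h2⟩ := h'
        have h3 := ih _ h2
        rcases List.mem_cons.1 hg with rfl | hg'
        · intro hrows
          obtain ⟨y, hy, f, hfm, hrep⟩ := node_sound4 (Y := lam * X) (η := η) hN h01 h12 hf _ _ h1
          refine h3 _ (expand_mem P g gs _ f hfm) ?_
          intro f' hf'
          rcases List.mem_cons.1 hf' with rfl | hf''
          · refine ⟨_, rep_sub (rep_mul P.den hrep) (rep_tf P hN hd), ?_⟩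
            have hd' : (0 : ℝ) < P.den := by exact_mod_cast hd
            nlinarith
          · exact hrows f' hf''
        · exact h3 g (expand_mem' P g₀ gs _ g hg')
      · rw [hk, cond_true, Bool.and_eq_true] at h'
        obtain ⟨h1, h2⟩ := h'
        rcases List.mem_cons.1 hg with rfl | hg'
        · intro hrows
          exact leafOk_sound hx _ _ _ hb hrows h1
        · exact ih gs h2 g hg'

theorem Op_val_perm {N : ℕ} (v : Fin 3 → Fin (N + 1) → ℝ) (w : Fin 3 → ℝ) (π : Fin 3 → Fin 3)
    (o : Op N) (l : Fin 3) (g : ℝ) :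
    o.val (fun l => v (π l)) (fun l => w (π l)) l g = o.val v w (π l) g := by
  cases o <;> rfl

theorem fails4_perm {N : ℕ} {t X : ℝ} {v : Fin 3 → Fin (N + 1) → ℝ} {w s : Fin 3 → ℝ}
    (hF : Fails4 t X v w s) (π : Equiv.Perm (Fin 3)) :
    Fails4 t X (fun l => v (π l)) (fun l => w (π l)) (fun l => s (π l)) := by
  have hinj : ∀ {a b : Fin 3}, a ≠ b → π a ≠ π b := fun h h' => h (π.injective h')
  refine ⟨fails_perm hF.F π, ?_⟩
  intro p q r F op oq hpq hqr hpr hop hoq
  have h := hF.E (π p) (π q) (π r) F op oq (hinj hpq) (hinj hqr) (hinj hpr) hop hoq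
  unfold EV at h ⊢
  rw [Op_val_perm, Op_val_perm]
  exact h

/-- a successful run gives the certificate -/
theorem cert_of_run4 (P : Prm) (ns : List ℕ) (hrun : run4 P ns [[]] = true) (hN : P.N ≤ 9)
    (hd : 0 < P.den) (lam : ℝ) (hl : 0 ≤ lam) (hlo : (P.lon : ℝ) ≤ P.lod * lam)
    (hhi : P.hid * lam ≤ P.hin) : Cert4 P.N lam (P.th lam) := by
  refine ⟨10000, by norm_num, ?_⟩
  intro X η v w s hX hη hv hw hs hW hV
  by_contra hcon
  push Not at hcon
  obtain ⟨hM, hS, hD, hE⟩ := hcon
  have hF : Fails4 (P.th lam * X + 10000 * η) X v w s := by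
    refine ⟨⟨?_, ?_, ?_⟩, ?_⟩
    · intro p q r k I hpq hqr hpr hk1 hkN hp hq
      exact hM p q r k I hpq hqr hpr hk1 hkN hp hq
    · intro p q r F hpq hqr hpr
      exact hS p q r F hpq hqr hpr
    · intro p q r i hpq hqr hpr hi1 hiN
      by_cases h : V v p {i}ᶜ + V v q univ ≤ P.th lam * X + 10000 * η
      · right
        exact hD p q r i hpq hqr hpr hi1 hiN h
      · left
        exact not_le.mp h
    · intro p q r F op oq hpq hqr hpr hop hoq
      exact hE p q r F op oq hpq hqr hpr hop hoq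
  set π := Tuple.sort fun l => V v l univ with hπ
  have hmono := Tuple.monotone_sort fun l => V v l univ
  have h01 : V v (π 0) univ ≤ V v (π 1) univ := hmono (by decide : (0 : Fin 3) ≤ 1)
  have h12 : V v (π 1) univ ≤ V v (π 2) univ := hmono (by decide : (1 : Fin 3) ≤ 2)
  have hsum : V v (π 0) univ + V v (π 1) univ + V v (π 2) univ ≤ lam * X + η := by
    have h1 : ∑ l : Fin 3, V v (π l) univ = ∑ l : Fin 3, V v l univ :=
      Equiv.sum_comp π fun l => V v l univ
    rw [Fin.sum_univ_three, Fin.sum_univ_three] at h1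
    rw [h1]
    exact hV
  exact run_sound4 P hN hd (v := fun l => v (π l)) (w := fun l => w (π l)) (s := fun l => s (π l))
    (xx_nonneg hX (by positivity) hη (fun l i => hv _ _) (fun l => hw _) (fun l => hs _))
    h01 h12
    (base_sound P hN hX (fun l => hW (π l)) hsum h01 h12 hlo hhi)
    (fails4_perm hF π) ns [[]] hrun [] List.mem_cons_self (fun f hf => absurd hf List.not_mem_nil)

end sound

end Pool.Agent.KS6_20.AE
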