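import Mathlib
import Pool.Graph.R_seed8.R365.AK.Main
import Pool.Agent.KS6_20.AE.FIN
import Pool.Agent.KS6_20.AE.Run
import Pool.Agent.KS6_20.AE.G1
import Pool.Agent.KS6_20.AE.G2
import Pool.Agent.KS6_20.AE.G3
import Pool.Agent.KS6_20.AE.G4
import Pool.Agent.KS6_20.AE.G5
import Pool.Agent.KS6_20.AE.G6
import Pool.Agent.KS6_20.AE.G7
import Pool.Agent.KS6_20.AE.G8
import Pool.Agent.KS6_20.AE.H1
import Pool.Agent.KS6_20.AE.H2
import Pool.Agent.KS6_20.AE.H3
import Pool.Agent.KS6_20.AE.H4

set_option autoImplicit false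

/-!
# The count of the points with `rad ≤ lam * h`, for all `lam`
-/

namespace Pool.Agent.KS6_20.AE

open NumberField IsDedekindDomain Finset Pool.Agent.W223.AK Pool.Agent.R365.AK

open Pool.Agent.R365.Chk

/-- the exponent -/
noncomputable def eN (l : ℝ) : ℝ :=
  if l ≤ 7 / 15 then 4 * l / 7
  else if l ≤ 9 / 14 then (19 * l + 1) / 37
  else if l ≤ 1 then (14 * l + 1) / 28
  else if l ≤ 57 / 56 then 5 * (14 * l - 5) / 84
  else if l ≤ 9 / 8 then (12 * l + 1) / 24
  else if l ≤ 45 / 32 then (80 * l - 3) / 144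
  else if l ≤ 3 / 2 then (7 * l - 3) / 9
  else if l ≤ 29 / 17 then (11 * l + 1) / 21
  else if l ≤ 16 / 9 then (9 * l - 5) / 11
  else if l ≤ 2 then 1
  else l - 1

/-- a certificate exists -/
def HasCert4 (lam e : ℝ) : Prop := ∃ N : ℕ, Cert4 N lam e

theorem has_seg4 (P : Prm) (ns : List ℕ) (hrun : run4 P ns [[]] = true) (hN : P.N ≤ 9)
    (hd : 0 < P.den) (lam : ℝ) (hl : 0 ≤ lam) (hlo : (P.lon : ℝ) ≤ P.lod * lam)
    (hhi : P.hid * lam ≤ P.hin) {e : ℝ} (he : P.th lam = e) : HasCert4 lam e :=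
  ⟨P.N, he ▸ cert_of_run4 P ns hrun hN hd lam hl hlo hhi⟩

theorem fin_of_has {K : Type} [Field K] [NumberField K] {lam e : ℝ} (he : 0 ≤ e)
    (h : HasCert4 lam e) : Fin3 K lam e := by
  obtain ⟨N, hN⟩ := h
  exact main4 K N lam e he hN

theorem cert_h (lam : ℝ) (h1 : 9 / 14 ≤ lam) (h2 : lam ≤ 28 / 29) :
    HasCert4 lam ((14 * lam + 1) / 28) := by
  rcases le_total lam (4 / 5) with h | h
  · refine has_seg4 H1.prm H1.dat H1.run_ok (by norm_num [H1.prm]) (by norm_num [H1.prm]) lam
      (by linarith) (by simp only [H1.prm]; push_cast; linarith)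
      (by simp only [H1.prm]; push_cast; linarith) ?_
    simp [Prm.th, H1.prm]
  rcases le_total lam (13 / 14) with h' | h'
  · refine has_seg4 H2.prm H2.dat H2.run_ok (by norm_num [H2.prm]) (by norm_num [H2.prm]) lam
      (by linarith) (by simp only [H2.prm]; push_cast; linarith)
      (by simp only [H2.prm]; push_cast; linarith) ?_
    simp [Prm.th, H2.prm]
  · refine has_seg4 H3.prm H3.dat H3.run_ok (by norm_num [H3.prm]) (by norm_num [H3.prm]) lam
      (by linarith) (by simp only [H3.prm]; push_cast; linarith)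
      (by simp only [H3.prm]; push_cast; linarith) ?_
    simp [Prm.th, H3.prm]

theorem cert_h4 (lam : ℝ) (h1 : 28 / 29 ≤ lam) (h2 : lam ≤ 1) :
    HasCert4 lam (15 * lam / 28) := by
  refine has_seg4 H4.prm H4.dat H4.run_ok (by norm_num [H4.prm]) (by norm_num [H4.prm]) lam
    (by linarith) (by simp only [H4.prm]; push_cast; linarith)
    (by simp only [H4.prm]; push_cast; linarith) ?_
  simp [Prm.th, H4.prm]

theorem fin_mono {K : Type} [Field K] [NumberField K] {lam e e' : ℝ} (h : Fin3 K lam e)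
    (hee : e ≤ e') : Fin3 K lam e' := by
  intro T c₀ δ hδ
  obtain ⟨D, hD, hm⟩ := h T c₀ δ hδ
  refine ⟨D, hD, fun X E hX hE => (hm X E hX hE).trans ?_⟩
  refine mul_le_mul_of_nonneg_left (Real.exp_le_exp.mpr ?_) hD.le
  exact mul_le_mul_of_nonneg_right (by linarith) hX

theorem fin_h (K : Type) [Field K] [NumberField K] (lam : ℝ) (h1 : 9 / 14 ≤ lam) (h2 : lam ≤ 1) :
    Fin3 K lam ((14 * lam + 1) / 28) := by
  rcases le_total lam (28 / 29) with h | h
  · exact fin_of_has (by linarith) (cert_h lam h1 h)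
  · exact fin_mono (fin_of_has (by linarith) (cert_h4 lam h h2)) (by linarith)

theorem cert_g1 (lam : ℝ) (h1 : 1 ≤ lam) (h2 : lam ≤ 57 / 56) :
    HasCert4 lam (5 * (14 * lam - 5) / 84) := by
  refine has_seg4 G1.prm G1.dat G1.run_ok (by norm_num [G1.prm]) (by norm_num [G1.prm]) lam
    (by linarith) (by simp only [G1.prm]; push_cast; linarith)
    (by simp only [G1.prm]; push_cast; linarith) ?_
  simp only [Prm.th, G1.prm, if_true]
  push_cast
  ring

theorem cert_g2 (lam : ℝ) (h1 : 57 / 56 ≤ lam) (h2 : lam ≤ 9 / 8) :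
    HasCert4 lam ((12 * lam + 1) / 24) := by
  refine has_seg4 G2.prm G2.dat G2.run_ok (by norm_num [G2.prm]) (by norm_num [G2.prm]) lam
    (by linarith) (by simp only [G2.prm]; push_cast; linarith)
    (by simp only [G2.prm]; push_cast; linarith) ?_
  simp [Prm.th, G2.prm]

theorem cert_g3 (lam : ℝ) (h1 : 9 / 8 ≤ lam) (h2 : lam ≤ 45 / 32) :
    HasCert4 lam ((80 * lam - 3) / 144) := by
  rcases le_total lam (5 / 4) with h | h
  · refine has_seg4 G3.prm G3.dat G3.run_ok (by norm_num [G3.prm]) (by norm_num [G3.prm]) lam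
      (by linarith) (by simp only [G3.prm]; push_cast; linarith)
      (by simp only [G3.prm]; push_cast; linarith) ?_
    simp only [Prm.th, G3.prm, if_true]
    push_cast
    ring
  · refine has_seg4 G4.prm G4.dat G4.run_ok (by norm_num [G4.prm]) (by norm_num [G4.prm]) lam
      (by linarith) (by simp only [G4.prm]; push_cast; linarith)
      (by simp only [G4.prm]; push_cast; linarith) ?_
    simp only [Prm.th, G4.prm, if_true]
    push_cast
    ring

theorem cert_g5 (lam : ℝ) (h1 : 45 / 32 ≤ lam) (h2 : lam ≤ 3 / 2) :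
    HasCert4 lam ((7 * lam - 3) / 9) := by
  refine has_seg4 G5.prm G5.dat G5.run_ok (by norm_num [G5.prm]) (by norm_num [G5.prm]) lam
    (by linarith) (by simp only [G5.prm]; push_cast; linarith)
    (by simp only [G5.prm]; push_cast; linarith) ?_
  simp only [Prm.th, G5.prm, if_true]
  push_cast
  ring

theorem cert_g6 (lam : ℝ) (h1 : 3 / 2 ≤ lam) (h2 : lam ≤ 29 / 17) :
    HasCert4 lam ((11 * lam + 1) / 21) := by
  rcases le_total lam (8 / 5) with h | h
  · refine has_seg4 G6.prm G6.dat G6.run_ok (by norm_num [G6.prm]) (by norm_num [G6.prm]) lam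
      (by linarith) (by simp only [G6.prm]; push_cast; linarith)
      (by simp only [G6.prm]; push_cast; linarith) ?_
    simp [Prm.th, G6.prm]
  · refine has_seg4 G7.prm G7.dat G7.run_ok (by norm_num [G7.prm]) (by norm_num [G7.prm]) lam
      (by linarith) (by simp only [G7.prm]; push_cast; linarith)
      (by simp only [G7.prm]; push_cast; linarith) ?_
    simp [Prm.th, G7.prm]

theorem cert_g8 (lam : ℝ) (h1 : 29 / 17 ≤ lam) (h2 : lam ≤ 16 / 9) :
    HasCert4 lam ((9 * lam - 5) / 11) := by
  refine has_seg4 G8.prm G8.dat G8.run_ok (by norm_num [G8.prm]) (by norm_num [G8.prm]) lam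
    (by linarith) (by simp only [G8.prm]; push_cast; linarith)
    (by simp only [G8.prm]; push_cast; linarith) ?_
  simp only [Prm.th, G8.prm, if_true]
  push_cast
  ring

/-- the count for all `lam` -/
theorem main5 (K : Type) [Field K] [NumberField K] (lam : ℝ) (h1 : 0 < lam) (h2 : lam ≤ 3) :
    Fin3 K lam (eN lam) := by
  have hold := main3 K lam h1 h2
  unfold eK at hold
  unfold eN
  split_ifs with g1 g2 g3 g4 g5 g6 g7 g8 g9 g10
  · rwa [if_pos g1] at hold
  · rwa [if_neg g1, if_pos (by linarith)] at hold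
  · exact fin_h K lam (by linarith) g3
  · exact fin_of_has (by linarith) (cert_g1 lam (by linarith) g4)
  · exact fin_of_has (by linarith) (cert_g2 lam (by linarith) g5)
  · exact fin_of_has (by linarith) (cert_g3 lam (by linarith) g6)
  · exact fin_of_has (by linarith) (cert_g5 lam (by linarith) g7)
  · exact fin_of_has (by linarith) (cert_g6 lam (by linarith) g8)
  · exact fin_of_has (by linarith) (cert_g8 lam (by linarith) g9)
  · rwa [if_neg g1, if_neg (by linarith), if_neg (by linarith), if_neg (by linarith),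
      if_neg (by linarith), if_pos g10] at hold
  · rwa [if_neg g1, if_neg (by linarith), if_neg (by linarith), if_neg (by linarith),
      if_neg (by linarith), if_neg g10] at hold

end Pool.Agent.KS6_20.AE
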